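import Mathlib
import Pool.Agent.TH264.MP.PL

/-!
# One dimensional inequalities of Prekopa-Leindler type

* `plN`: several lower semicontinuous functions with weights;
* `minPL`: the level set version for two functions with supremum one.
-/

set_option autoImplicit false

namespace Pool.Agent.X166.LW

open MeasureTheory Filter Topology
open scoped ENNReal

theorem lsc_mul {X : Type*} [TopologicalSpace X] {f g : X → ℝ≥0∞} (hf : LowerSemicontinuous f)
    (hg : LowerSemicontinuous g) : LowerSemicontinuous (fun x => f x * g x) := by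
  intro x c hc
  have hf0 : 0 < f x := by
    rw [pos_iff_ne_zero]; intro h; simp [h] at hc
  have hg0 : 0 < g x := by
    rw [pos_iff_ne_zero]; intro h; simp [h] at hc
  obtain ⟨u, _, hu, hut⟩ := exists_seq_strictMono_tendsto' hf0
  obtain ⟨v, _, hv, hvt⟩ := exists_seq_strictMono_tendsto' hg0
  have ht := ENNReal.Tendsto.mul hut (Or.inl hf0.ne') hvt (Or.inl hg0.ne')
  obtain ⟨n, hn⟩ := (ht.eventually (lt_mem_nhds hc)).exists
  filter_upwards [hf x _ (hu n).2, hg x _ (hv n).2] with y h1 h2
  exact hn.trans_le (mul_le_mul' h1.le h2.le)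

theorem lsc_prod {X κ : Type*} [TopologicalSpace X] (J : Finset κ) {f : κ → X → ℝ≥0∞}
    (hf : ∀ j ∈ J, LowerSemicontinuous (f j)) : LowerSemicontinuous (fun x => ∏ j ∈ J, f j x) := by
  classical
  induction J using Finset.induction_on with
  | empty => simpa using lowerSemicontinuous_const
  | insert a J ha ih =>
    simp only [Finset.prod_insert ha]
    exact lsc_mul (hf a (Finset.mem_insert_self _ _))
      (ih fun j hj => hf j (Finset.mem_insert_of_mem hj))

theorem lsc_rpow {X : Type*} [TopologicalSpace X] {f : X → ℝ≥0∞} (hf : LowerSemicontinuous f)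
    {w : ℝ} (hw : 0 ≤ w) : LowerSemicontinuous (fun x => f x ^ w) :=
  Continuous.comp_lowerSemicontinuous ENNReal.continuous_rpow_const hf
    (ENNReal.monotone_rpow_of_nonneg hw)

theorem lsc_comp {X Y : Type*} [TopologicalSpace X] [TopologicalSpace Y] {f : Y → ℝ≥0∞}
    (hf : LowerSemicontinuous f) {φ : X → Y} (hφ : Continuous φ) :
    LowerSemicontinuous (fun x => f (φ x)) :=
  fun x c hc => hφ.continuousAt.eventually (hf (φ x) c hc)

/-- Prekopa-Leindler on the line for several lower semicontinuous functions. -/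
theorem plN {κ : Type*} (J : Finset κ) : J.Nonempty → ∀ (w : κ → ℝ), (∀ j ∈ J, 0 < w j) →
    ∑ j ∈ J, w j = 1 → ∀ g : κ → ℝ → ℝ≥0∞, (∀ j ∈ J, LowerSemicontinuous (g j)) →
    ∀ G : ℝ → ℝ≥0∞, Measurable G →
    (∀ t : κ → ℝ, ∏ j ∈ J, g j (t j) ^ w j ≤ G (∑ j ∈ J, w j * t j)) →
    ∏ j ∈ J, (∫⁻ x, g j x) ^ w j ≤ ∫⁻ x, G x := by
  classical
  induction J using Finset.induction_on with
  | empty => intro h; exact absurd h (by simp)
  | insert a J ha ih =>
    intro _ w hw hsum g hg G hG H
    rcases J.eq_empty_or_nonempty with hJ | hJ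
    · subst hJ
      simp only [insert_empty_eq, Finset.sum_singleton] at hsum
      simp only [insert_empty_eq, Finset.prod_singleton, Finset.sum_singleton, hsum,
        ENNReal.rpow_one, one_mul] at H ⊢
      exact lintegral_mono fun x => H fun _ => x
    · set W : ℝ := ∑ j ∈ J, w j with hW
      have hwJ : ∀ j ∈ J, 0 < w j := fun j hj => hw j (Finset.mem_insert_of_mem hj)
      have hW0 : 0 < W := Finset.sum_pos hwJ hJ
      have hwa : 0 < w a := hw a (Finset.mem_insert_self _ _)
      rw [Finset.sum_insert ha] at hsum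
      have hWa : w a = 1 - W := by linarith
      have hW1 : W < 1 := by linarith
      set G2 : ℝ → ℝ≥0∞ := fun u => ⨆ t : κ → ℝ,
        ∏ j ∈ J, g j (t j + (u - ∑ i ∈ J, (w i / W) * t i)) ^ (w j / W) with hG2
      have hG2l : LowerSemicontinuous G2 := by
        refine lowerSemicontinuous_iSup fun t => lsc_prod J fun j hj => ?_
        refine lsc_rpow ?_ (div_pos (hwJ j hj) hW0).le
        exact lsc_comp (hg j (Finset.mem_insert_of_mem hj)) (by fun_prop)
      have hsum' : ∑ j ∈ J, w j / W = 1 := by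
        rw [← Finset.sum_div, ← hW, div_self hW0.ne']
      have h1 := ih hJ (fun j => w j / W) (fun j hj => div_pos (hwJ j hj) hW0) hsum' g
        (fun j hj => hg j (Finset.mem_insert_of_mem hj)) G2 hG2l.measurable (by
          intro t
          rw [hG2]
          refine le_iSup_of_le t (le_of_eq ?_)
          simp)
      have h2 := Pool.Agent.TH264.MP.pl1 W hW0 hW1 G2 (g a) G hG2l.measurable
        (hg a (Finset.mem_insert_self _ _)).measurable hG (by
          intro x y
          have e0 : G2 x ^ W = ⨆ t : κ → ℝ,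
              (∏ j ∈ J, g j (t j + (x - ∑ i ∈ J, (w i / W) * t i)) ^ (w j / W)) ^ W := by
            exact (ENNReal.orderIsoRpow W hW0).map_iSup (fun t : κ → ℝ =>
              ∏ j ∈ J, g j (t j + (x - ∑ i ∈ J, (w i / W) * t i)) ^ (w j / W))
          rw [e0, ENNReal.iSup_mul]
          refine iSup_le fun t => ?_
          set c : ℝ := x - ∑ i ∈ J, (w i / W) * t i with hc
          have h3 := H (Function.update (fun j => t j + c) a y)
          rw [Finset.prod_insert ha, Finset.sum_insert ha] at h3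
          have e1 : ∏ j ∈ J, g j (Function.update (fun j => t j + c) a y j) ^ w j =
              (∏ j ∈ J, g j (t j + c) ^ (w j / W)) ^ W := by
            rw [← ENNReal.prod_rpow_of_nonneg hW0.le]
            refine Finset.prod_congr rfl fun j hj => ?_
            have hja : j ≠ a := fun h => ha (h ▸ hj)
            rw [Function.update_of_ne hja, ← ENNReal.rpow_mul, div_mul_cancel₀ _ hW0.ne']
          have e2 : ∑ j ∈ J, w j * Function.update (fun j => t j + c) a y j = W * x := by
            have : ∀ j ∈ J, w j * Function.update (fun j => t j + c) a y j = w j * t j + w j * c := by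
              intro j hj
              have hja : j ≠ a := fun h => ha (h ▸ hj)
              rw [Function.update_of_ne hja]; ring
            rw [Finset.sum_congr rfl this, Finset.sum_add_distrib, ← Finset.sum_mul, ← hW, hc,
              mul_sub, Finset.mul_sum]
            have : ∀ i ∈ J, W * (w i / W * t i) = w i * t i := by
              intro i _; field_simp
            rw [Finset.sum_congr rfl this]; ring
          rw [e1, e2, Function.update_self, hWa] at h3
          rw [mul_comm ((∏ j ∈ J, g j (t j + c) ^ (w j / W)) ^ W)]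
          refine h3.trans (le_of_eq ?_)
          congr 1; ring)
      rw [Finset.prod_insert ha, hWa, mul_comm]
      refine le_trans ?_ h2
      gcongr
      calc ∏ j ∈ J, (∫⁻ x, g j x) ^ w j = (∏ j ∈ J, (∫⁻ x, g j x) ^ (w j / W)) ^ W := by
            rw [← ENNReal.prod_rpow_of_nonneg hW0.le]
            refine Finset.prod_congr rfl fun j hj => ?_
            rw [← ENNReal.rpow_mul, div_mul_cancel₀ _ hW0.ne']
        _ ≤ _ := ENNReal.rpow_le_rpow h1 hW0.le

/-- with a constant factor -/
theorem plN_const {κ : Type*} (J : Finset κ) (hJ : J.Nonempty) (w : κ → ℝ)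
    (hw : ∀ j ∈ J, 0 < w j) (hsum : ∑ j ∈ J, w j = 1) (g : κ → ℝ → ℝ≥0∞)
    (hg : ∀ j ∈ J, LowerSemicontinuous (g j)) (G : ℝ → ℝ≥0∞) (hG : Measurable G) (c : ℝ≥0∞)
    (H : ∀ t : κ → ℝ, c * ∏ j ∈ J, g j (t j) ^ w j ≤ G (∑ j ∈ J, w j * t j)) :
    c * ∏ j ∈ J, (∫⁻ x, g j x) ^ w j ≤ ∫⁻ x, G x := by
  have key : ∀ d : ℝ≥0∞, d ≠ 0 → d ≠ ∞ → d ≤ c →
      d * ∏ j ∈ J, (∫⁻ x, g j x) ^ w j ≤ ∫⁻ x, G x := by
    intro d hd0 hdt hdc
    have h1 := plN J hJ w hw hsum g hg (fun x => d⁻¹ * G x) (hG.const_mul _) (by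
      intro t
      have h2 := (mul_le_mul' hdc (le_refl _)).trans (H t)
      calc ∏ j ∈ J, g j (t j) ^ w j = d⁻¹ * (d * ∏ j ∈ J, g j (t j) ^ w j) := by
            rw [← mul_assoc, ENNReal.inv_mul_cancel hd0 hdt, one_mul]
        _ ≤ _ := by gcongr)
    rw [lintegral_const_mul _ hG] at h1
    calc d * ∏ j ∈ J, (∫⁻ x, g j x) ^ w j ≤ d * (d⁻¹ * ∫⁻ x, G x) := by gcongr
      _ = _ := by rw [← mul_assoc, ENNReal.mul_inv_cancel hd0 hdt, one_mul]
  rcases eq_or_ne c 0 with hc | hc
  · simp [hc]
  rcases eq_or_ne c ∞ with hct | hct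
  · have h1 : ∀ n : ℕ, ((n + 1 : ℕ) : ℝ≥0∞) * ∏ j ∈ J, (∫⁻ x, g j x) ^ w j ≤ ∫⁻ x, G x :=
      fun n => key _ (by exact_mod_cast Nat.succ_ne_zero n) (ENNReal.natCast_ne_top _)
        (by rw [hct]; exact le_top)
    rcases eq_or_ne (∏ j ∈ J, (∫⁻ x, g j x) ^ w j) 0 with h0 | h0
    · simp [h0]
    have ht : Tendsto (fun n : ℕ => ((n + 1 : ℕ) : ℝ≥0∞) * ∏ j ∈ J, (∫⁻ x, g j x) ^ w j) atTop
        (𝓝 (∞ * ∏ j ∈ J, (∫⁻ x, g j x) ^ w j)) :=
      ENNReal.Tendsto.mul_const (ENNReal.tendsto_nat_nhds_top.comp (tendsto_add_atTop_nat 1))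
        (Or.inl (by simp))
    rw [hct]
    exact le_of_tendsto' ht h1
  · exact key c hc hct le_rfl

open Pool.Agent.TH264.MP.Base Pool.Agent.TH264.MP.Base.PLAaux in
/-- the level set version -/
theorem minPL (s : ℝ) (hs : 0 < s) (hs1 : s < 1) (f g h : ℝ → ℝ≥0∞)
    (hf : Measurable f) (hg : Measurable g) (hh : Measurable h)
    (hf1 : ⨆ x, f x = 1) (hg1 : ⨆ x, g x = 1)
    (hfg : ∀ x y, min (f x) (g y) ≤ h (s * x + (1 - s) * y)) :
    ENNReal.ofReal s * (∫⁻ x, f x) + ENNReal.ofReal (1 - s) * (∫⁻ x, g x) ≤ ∫⁻ x, h x := by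
  have h1s : 0 < 1 - s := by linarith
  have hfle : ∀ x, f x ≤ 1 := fun x => hf1 ▸ le_iSup f x
  have hgle : ∀ x, g x ≤ 1 := fun x => hg1 ▸ le_iSup g x
  have hm : ∫⁻ x, min (h x) 1 ≤ ∫⁻ x, h x := lintegral_mono fun x => min_le_left _ _
  refine le_trans ?_ hm
  rw [cake f hf hfle, cake g hg hgle, cake (fun x => min (h x) 1) (hh.min measurable_const)
    (fun x => min_le_right _ _), ← lintegral_const_mul _ (meas_anti _),
    ← lintegral_const_mul _ (meas_anti _),
    ← lintegral_add_left ((meas_anti _).const_mul _)]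
  refine setLIntegral_mono' measurableSet_Ioi fun t ht => ?_
  rw [Set.mem_Ioi] at ht
  rcases lt_or_ge t 1 with ht1 | ht1
  · have htE : ENNReal.ofReal t < 1 := by
      rw [← ENNReal.ofReal_one]
      exact (ENNReal.ofReal_lt_ofReal_iff one_pos).2 ht1
    have conv : ∀ (u : ℝ → ℝ≥0∞), (∀ x, u x ≤ 1) → ∀ x,
        (t < (u x).toReal ↔ ENNReal.ofReal t < u x) := by
      intro u hu x
      exact (ENNReal.ofReal_lt_iff_lt_toReal ht.le
        (ne_top_of_le_ne_top ENNReal.one_ne_top (hu x))).symm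
    refine LBM_ok s hs hs1 _ _ _ ?_ ?_ ?_ ?_ ?_ ?_
    · exact measurableSet_lt measurable_const hf.ennreal_toReal
    · exact measurableSet_lt measurable_const hg.ennreal_toReal
    · exact measurableSet_lt measurable_const (hh.min measurable_const).ennreal_toReal
    · rw [← hf1] at htE
      obtain ⟨x, hx⟩ := lt_iSup_iff.1 htE
      exact ⟨x, (conv f hfle x).2 hx⟩
    · rw [← hg1] at htE
      obtain ⟨x, hx⟩ := lt_iSup_iff.1 htE
      exact ⟨x, (conv g hgle x).2 hx⟩
    · intro x hx y hy
      have hx' := (conv f hfle x).1 hx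
      have hy' := (conv g hgle y).1 hy
      refine (conv (fun x => min (h x) 1) (fun x => min_le_right _ _) _).2 ?_
      exact lt_min (lt_of_lt_of_le (lt_min hx' hy') (hfg x y)) htE
  · have e0 : ∀ (u : ℝ → ℝ≥0∞), (∀ x, u x ≤ 1) → volume {x | t < (u x).toReal} = 0 := by
      intro u hu
      have : {x | t < (u x).toReal} = ∅ := by
        ext x
        simp only [Set.mem_ofPred_eq, Set.mem_empty_iff_false, iff_false, not_lt]
        refine le_trans ?_ ht1
        have := ENNReal.toReal_mono ENNReal.one_ne_top (hu x)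
        simpa using this
      rw [this, measure_empty]
    rw [e0 f hfle, e0 g hgle]
    simp

end Pool.Agent.X166.LW
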