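import Pool.Agent.X166.LW.A

/-!
# Ball's theorem

For a log-concave function `f` the function `x ↦ (∫ r^(d-1) f(r x) dr)^(-1/d)` is subadditive.
-/

set_option autoImplicit false

namespace Pool.Agent.X166.LW

open MeasureTheory Filter Topology Set
open scoped ENNReal

variable {ι : Type*} [Fintype ι]

/-- the moment of `f` of order `d - 1` along the ray of `x` -/
noncomputable def Am (d : ℕ) (f : (ι → ℝ) → ℝ≥0∞) (x : ι → ℝ) : ℝ≥0∞ :=
  ∫⁻ r in Ioi (0 : ℝ), ENNReal.ofReal (r ^ (d - 1)) * f (r • x)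

/-- the same integrand in the variable `1 / r` -/
noncomputable def Pm (d : ℕ) (f : (ι → ℝ) → ℝ≥0∞) (x : ι → ℝ) (u : ℝ) : ℝ≥0∞ :=
  (Ioi (0 : ℝ)).indicator (fun u => ENNReal.ofReal ((u ^ (d + 1))⁻¹) * f (u⁻¹ • x)) u

omit [Fintype ι] in
theorem meas_Pm (d : ℕ) {f : (ι → ℝ) → ℝ≥0∞} (hf : Measurable f) (x : ι → ℝ) :
    Measurable (Pm d f x) := by
  refine Measurable.indicator (Measurable.mul ?_ ?_) measurableSet_Ioi
  · exact ENNReal.measurable_ofReal.comp ((measurable_id.pow_const _).inv)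
  · refine hf.comp ?_
    exact measurable_inv.smul_const x

theorem int_Pm (d : ℕ) (hd : 1 ≤ d) (f : (ι → ℝ) → ℝ≥0∞) (x : ι → ℝ) :
    ∫⁻ u, Pm d f x u = Am d f x := by
  unfold Am Pm
  rw [lintegral_indicator measurableSet_Ioi]
  have himg : (fun u : ℝ => u⁻¹) '' Ioi 0 = Ioi 0 := by
    ext r
    constructor
    · rintro ⟨u, hu, rfl⟩
      have hu' : (0 : ℝ) < u := hu
      exact (inv_pos.2 hu' : (0 : ℝ) < u⁻¹)
    · intro hr
      have hr' : (0 : ℝ) < r := hr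
      exact ⟨r⁻¹, (inv_pos.2 hr' : (0 : ℝ) < r⁻¹), inv_inv r⟩
  have h := lintegral_image_eq_lintegral_abs_deriv_mul (s := Ioi (0 : ℝ)) (f := fun u : ℝ => u⁻¹)
    (f' := fun u => -(u ^ 2)⁻¹) measurableSet_Ioi
    (fun u hu => (hasDerivAt_inv (ne_of_gt hu)).hasDerivWithinAt)
    (fun u _ v _ huv => inv_injective huv)
    (fun r => ENNReal.ofReal (r ^ (d - 1)) * f (r • x))
  rw [himg] at h
  rw [h]
  refine setLIntegral_congr_fun measurableSet_Ioi fun u hu => ?_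
  have hu' : (0 : ℝ) < u := hu
  rw [← mul_assoc, ← ENNReal.ofReal_mul (abs_nonneg _), abs_neg, abs_of_pos (by positivity)]
  congr 2
  obtain ⟨k, rfl⟩ : ∃ k, d = k + 1 := ⟨d - 1, by omega⟩
  simp only [Nat.add_sub_cancel, inv_pow]
  rw [← mul_inv, ← pow_add]
  congr 2
  omega

theorem lint_scale {F : ℝ → ℝ≥0∞} (hF : Measurable F) {a : ℝ} (ha : 0 < a) :
    ∫⁻ v, F (a * v) = ENNReal.ofReal a⁻¹ * ∫⁻ v, F v := by
  have h := lintegral_map (μ := (volume : Measure ℝ)) hF (measurable_const_mul a)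
  rw [Real.map_volume_mul_left ha.ne', lintegral_smul_measure, abs_of_pos (inv_pos.2 ha)] at h
  rw [← h, smul_eq_mul]

/-- log-concavity -/
def LogC (f : (ι → ℝ) → ℝ≥0∞) : Prop :=
  ∀ s : ℝ, 0 < s → s < 1 → ∀ x y, f x ^ s * f y ^ (1 - s) ≤ f (s • x + (1 - s) • y)

theorem geo_ge {s v1 v2 v a b : ℝ} (ha : 0 < a) (hb : 0 < b) (h1 : 0 < v1) (h2 : 0 < v2)
    (hv : v = (a * v1 + b * v2) / (a + b)) (hs : s = a * v1 / (a * v1 + b * v2)) :
    v ≤ v1 ^ s * v2 ^ (1 - s) := by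
  have hden : 0 < a * v1 + b * v2 := by positivity
  have hs0 : 0 ≤ s := by rw [hs]; positivity
  have hs1 : 1 - s = b * v2 / (a * v1 + b * v2) := by rw [hs]; field_simp; ring
  have hs1' : 0 ≤ 1 - s := by rw [hs1]; positivity
  have hvp : 0 < v := by rw [hv]; positivity
  have h := Real.geom_mean_le_arith_mean2_weighted hs0 hs1' (inv_nonneg.2 h1.le)
    (inv_nonneg.2 h2.le) (by ring)
  have e : s * v1⁻¹ + (1 - s) * v2⁻¹ = v⁻¹ := by
    rw [hs1, hs, hv]; field_simp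
  rw [e, Real.inv_rpow h1.le, Real.inv_rpow h2.le, ← mul_inv] at h
  exact (inv_le_inv₀ (by positivity) hvp).1 h

theorem Pm_min (d : ℕ) {f : (ι → ℝ) → ℝ≥0∞} (hf : LogC f) (x y : ι → ℝ) {a b : ℝ}
    (ha : 0 < a) (hb : 0 < b) (v1 v2 : ℝ) :
    min (ENNReal.ofReal (a ^ (d + 1)) * Pm d f x (a * v1))
      (ENNReal.ofReal (b ^ (d + 1)) * Pm d f y (b * v2)) ≤
    ENNReal.ofReal ((a + b) ^ (d + 1)) *
      Pm d f (x + y) ((a + b) * (a / (a + b) * v1 + (1 - a / (a + b)) * v2)) := by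
  have hab : 0 < a + b := by positivity
  rcases le_or_gt v1 0 with h1 | h1
  · have : a * v1 ∉ Ioi (0 : ℝ) := by
      rw [mem_Ioi, not_lt]; exact mul_nonpos_of_nonneg_of_nonpos ha.le h1
    simp [Pm, Set.indicator_of_notMem this]
  rcases le_or_gt v2 0 with h2 | h2
  · have : b * v2 ∉ Ioi (0 : ℝ) := by
      rw [mem_Ioi, not_lt]; exact mul_nonpos_of_nonneg_of_nonpos hb.le h2
    simp [Pm, Set.indicator_of_notMem this]
  have hden : 0 < a * v1 + b * v2 := by positivity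
  have e0 : (a + b) * (a / (a + b) * v1 + (1 - a / (a + b)) * v2) = a * v1 + b * v2 := by
    field_simp; ring
  set v : ℝ := (a * v1 + b * v2) / (a + b) with hv
  set s : ℝ := a * v1 / (a * v1 + b * v2) with hs
  have hvp : 0 < v := by positivity
  have hs0 : 0 < s := by positivity
  have hs1 : s < 1 := by
    rw [hs, div_lt_one hden]; nlinarith [mul_pos hb h2]
  have h1s : 1 - s = b * v2 / (a * v1 + b * v2) := by rw [hs]; field_simp; ring
  rw [e0]
  have scal : ∀ (c w : ℝ) (z : ι → ℝ), 0 < c → 0 < w →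
      ENNReal.ofReal (c ^ (d + 1)) * Pm d f z (c * w) =
        ENNReal.ofReal ((w ^ (d + 1))⁻¹) * f ((c * w)⁻¹ • z) := by
    intro c w z hc hw
    have : c * w ∈ Ioi (0 : ℝ) := mul_pos hc hw
    rw [Pm, Set.indicator_of_mem this, ← mul_assoc, ← ENNReal.ofReal_mul (by positivity)]
    congr 2
    rw [mul_pow, mul_inv, ← mul_assoc, mul_inv_cancel₀ (by positivity), one_mul]
  have e1 : a * v1 + b * v2 = (a + b) * v := by rw [hv]; field_simp
  rw [scal a v1 x ha h1, scal b v2 y hb h2, e1, scal (a + b) v (x + y) hab hvp, ← e1]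
  set m := min (ENNReal.ofReal ((v1 ^ (d + 1))⁻¹) * f ((a * v1)⁻¹ • x))
    (ENNReal.ofReal ((v2 ^ (d + 1))⁻¹) * f ((b * v2)⁻¹ • y)) with hm
  have g1 : m * ENNReal.ofReal (v1 ^ (d + 1)) ≤ f ((a * v1)⁻¹ • x) := by
    calc m * ENNReal.ofReal (v1 ^ (d + 1))
        ≤ (ENNReal.ofReal ((v1 ^ (d + 1))⁻¹) * f ((a * v1)⁻¹ • x)) *
          ENNReal.ofReal (v1 ^ (d + 1)) := by gcongr; exact min_le_left _ _
      _ = (ENNReal.ofReal ((v1 ^ (d + 1))⁻¹) * ENNReal.ofReal (v1 ^ (d + 1))) *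
          f ((a * v1)⁻¹ • x) := by ring
      _ = f ((a * v1)⁻¹ • x) := by
          rw [← ENNReal.ofReal_mul (by positivity), inv_mul_cancel₀ (by positivity)]; simp
  have g2 : m * ENNReal.ofReal (v2 ^ (d + 1)) ≤ f ((b * v2)⁻¹ • y) := by
    calc m * ENNReal.ofReal (v2 ^ (d + 1))
        ≤ (ENNReal.ofReal ((v2 ^ (d + 1))⁻¹) * f ((b * v2)⁻¹ • y)) *
          ENNReal.ofReal (v2 ^ (d + 1)) := by gcongr; exact min_le_right _ _
      _ = (ENNReal.ofReal ((v2 ^ (d + 1))⁻¹) * ENNReal.ofReal (v2 ^ (d + 1))) *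
          f ((b * v2)⁻¹ • y) := by ring
      _ = f ((b * v2)⁻¹ • y) := by
          rw [← ENNReal.ofReal_mul (by positivity), inv_mul_cancel₀ (by positivity)]; simp
  have h3 := hf s hs0 hs1 ((a * v1)⁻¹ • x) ((b * v2)⁻¹ • y)
  have e2 : s • ((a * v1)⁻¹ • x) + (1 - s) • ((b * v2)⁻¹ • y) =
      (a * v1 + b * v2)⁻¹ • (x + y) := by
    rw [smul_smul, smul_smul, h1s, hs, smul_add]
    congr 2 <;> field_simp
  rw [e2] at h3
  have h4 : m * ENNReal.ofReal (v ^ (d + 1)) ≤ f ((a * v1 + b * v2)⁻¹ • (x + y)) := by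
    refine le_trans ?_ h3
    have h5 : (m * ENNReal.ofReal (v1 ^ (d + 1))) ^ s * (m * ENNReal.ofReal (v2 ^ (d + 1))) ^ (1 - s)
        ≤ f ((a * v1)⁻¹ • x) ^ s * f ((b * v2)⁻¹ • y) ^ (1 - s) :=
      mul_le_mul' (ENNReal.rpow_le_rpow g1 hs0.le) (ENNReal.rpow_le_rpow g2 (by linarith))
    refine le_trans ?_ h5
    rw [ENNReal.mul_rpow_of_nonneg _ _ hs0.le, ENNReal.mul_rpow_of_nonneg _ _ (by linarith)]
    have e3 : m ^ s * ENNReal.ofReal (v1 ^ (d + 1)) ^ s *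
        (m ^ (1 - s) * ENNReal.ofReal (v2 ^ (d + 1)) ^ (1 - s)) =
        (m ^ s * m ^ (1 - s)) * (ENNReal.ofReal (v1 ^ (d + 1)) ^ s *
          ENNReal.ofReal (v2 ^ (d + 1)) ^ (1 - s)) := by ring
    rw [e3, ← ENNReal.rpow_add_of_nonneg _ _ hs0.le (by linarith)]
    simp only [add_sub_cancel, ENNReal.rpow_one]
    gcongr
    rw [ENNReal.ofReal_rpow_of_pos (by positivity), ENNReal.ofReal_rpow_of_pos (by positivity),
      ← ENNReal.ofReal_mul (by positivity)]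
    refine ENNReal.ofReal_le_ofReal ?_
    have h6 := geo_ge ha hb h1 h2 hv hs
    calc v ^ (d + 1) ≤ (v1 ^ s * v2 ^ (1 - s)) ^ (d + 1) := by gcongr
      _ = _ := by
          rw [mul_pow, ← Real.rpow_natCast, ← Real.rpow_natCast, ← Real.rpow_natCast,
            ← Real.rpow_natCast, ← Real.rpow_mul h1.le, ← Real.rpow_mul h2.le,
            ← Real.rpow_mul h1.le, ← Real.rpow_mul h2.le]
          ring_nf
  calc m = ENNReal.ofReal ((v ^ (d + 1))⁻¹) * (m * ENNReal.ofReal (v ^ (d + 1))) := by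
        rw [mul_comm m, ← mul_assoc, ← ENNReal.ofReal_mul (by positivity),
          inv_mul_cancel₀ (by positivity)]; simp
    _ ≤ _ := by gcongr

theorem exists_scale {d : ℕ} {S : ℝ≥0∞} (h0 : S ≠ 0) (ht : S ≠ ∞) :
    ∃ a : ℝ, 0 < a ∧ ENNReal.ofReal (a ^ (d + 1)) * S = 1 := by
  have hS : 0 < S.toReal := ENNReal.toReal_pos h0 ht
  refine ⟨(S.toReal⁻¹) ^ (((d + 1 : ℕ) : ℝ)⁻¹), by positivity, ?_⟩
  rw [Real.rpow_inv_natCast_pow (by positivity) (by omega), ENNReal.ofReal_inv_of_pos hS,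
    ENNReal.ofReal_toReal ht, ENNReal.inv_mul_cancel h0 ht]

/-- the key inequality -/
theorem Am_ineq (d : ℕ) (hd : 1 ≤ d) {f : (ι → ℝ) → ℝ≥0∞} (hf : LogC f) (hm : Measurable f)
    (x y : ι → ℝ) (hx0 : Am d f x ≠ 0) (hy0 : Am d f y ≠ 0)
    (hxS : (⨆ u, Pm d f x u) ≠ ∞) (hyS : (⨆ u, Pm d f y u) ≠ ∞) :
    ∃ a b : ℝ, 0 < a ∧ 0 < b ∧ ENNReal.ofReal (a ^ (d + 1)) * Am d f x +
      ENNReal.ofReal (b ^ (d + 1)) * Am d f y ≤ ENNReal.ofReal ((a + b) ^ (d + 1)) *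
        Am d f (x + y) := by
  have nz : ∀ z : ι → ℝ, Am d f z ≠ 0 → (⨆ u, Pm d f z u) ≠ 0 := by
    intro z hz h
    apply hz
    rw [← int_Pm d hd]
    have : ∀ u, Pm d f z u = 0 := fun u => le_antisymm (h ▸ le_iSup _ u) zero_le
    simp [this]
  obtain ⟨a, ha, haS⟩ := exists_scale (d := d) (nz x hx0) hxS
  obtain ⟨b, hb, hbS⟩ := exists_scale (d := d) (nz y hy0) hyS
  refine ⟨a, b, ha, hb, ?_⟩
  have hab : 0 < a + b := by positivity
  set s : ℝ := a / (a + b) with hs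
  have hs0 : 0 < s := by positivity
  have hs1 : s < 1 := by rw [hs, div_lt_one hab]; linarith
  have h1s : 1 - s = b / (a + b) := by rw [hs]; field_simp; ring
  have sup1 : ∀ (c : ℝ) (z : ι → ℝ), 0 < c →
      ENNReal.ofReal (c ^ (d + 1)) * (⨆ u, Pm d f z u) = 1 →
      ⨆ v, ENNReal.ofReal (c ^ (d + 1)) * Pm d f z (c * v) = 1 := by
    intro c z hc h
    rw [← ENNReal.mul_iSup, ← h]
    congr 1
    exact Function.Surjective.iSup_comp (g := Pm d f z) (f := fun v : ℝ => c * v)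
      (fun w => ⟨c⁻¹ * w, by field_simp⟩)
  have h := minPL s hs0 hs1 (fun v => ENNReal.ofReal (a ^ (d + 1)) * Pm d f x (a * v))
    (fun v => ENNReal.ofReal (b ^ (d + 1)) * Pm d f y (b * v))
    (fun v => ENNReal.ofReal ((a + b) ^ (d + 1)) * Pm d f (x + y) ((a + b) * v))
    (((meas_Pm d hm x).comp (measurable_const_mul a)).const_mul _)
    (((meas_Pm d hm y).comp (measurable_const_mul b)).const_mul _)
    (((meas_Pm d hm (x + y)).comp (measurable_const_mul (a + b))).const_mul _)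
    (sup1 a x ha haS) (sup1 b y hb hbS) (fun v1 v2 => Pm_min d hf x y ha hb v1 v2)
  have int1 : ∀ (c : ℝ) (z : ι → ℝ), 0 < c →
      ∫⁻ v, ENNReal.ofReal (c ^ (d + 1)) * Pm d f z (c * v) =
        ENNReal.ofReal (c ^ d) * Am d f z := by
    intro c z hc
    rw [show (∫⁻ v, ENNReal.ofReal (c ^ (d + 1)) * Pm d f z (c * v)) =
      ENNReal.ofReal (c ^ (d + 1)) * ∫⁻ v, Pm d f z (c * v) from
      lintegral_const_mul _ ((meas_Pm d hm z).comp (measurable_const_mul c)),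
      lint_scale (meas_Pm d hm z) hc, int_Pm d hd, ← mul_assoc,
      ← ENNReal.ofReal_mul (by positivity)]
    congr 2
    rw [pow_succ]; field_simp
  rw [int1 a x ha, int1 b y hb, int1 (a + b) (x + y) hab, ← mul_assoc, ← mul_assoc,
    ← ENNReal.ofReal_mul hs0.le, ← ENNReal.ofReal_mul (by linarith)] at h
  have h' := mul_le_mul_right h (ENNReal.ofReal (a + b))
  rw [mul_add, ← mul_assoc, ← mul_assoc, ← mul_assoc, ← ENNReal.ofReal_mul hab.le,
    ← ENNReal.ofReal_mul hab.le, ← ENNReal.ofReal_mul hab.le] at h'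
  have t1 : (a + b) * (s * a ^ d) = a ^ (d + 1) := by rw [hs, pow_succ]; field_simp
  have t2 : (a + b) * ((1 - s) * b ^ d) = b ^ (d + 1) := by rw [h1s, pow_succ]; field_simp
  have t3 : (a + b) * (a + b) ^ d = (a + b) ^ (d + 1) := by rw [pow_succ]; ring
  rw [t1, t2, t3] at h'
  exact h'

theorem real_step (d : ℕ) (hd : 1 ≤ d) {a b α β ζ : ℝ} (ha : 0 < a) (hb : 0 < b) (hα : 0 < α)
    (hβ : 0 < β) (hζ : 0 < ζ)
    (h : a ^ (d + 1) / α ^ d + b ^ (d + 1) / β ^ d ≤ (a + b) ^ (d + 1) / ζ ^ d) : ζ ≤ α + β := by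
  have hαβ : 0 < α + β := by positivity
  have hc := (convexOn_pow (d + 1)).2 (x := a / α) (y := b / β)
    (show a / α ∈ Ici (0 : ℝ) from by simp only [mem_Ici]; positivity)
    (show b / β ∈ Ici (0 : ℝ) from by simp only [mem_Ici]; positivity)
    (show 0 ≤ α / (α + β) by positivity) (show 0 ≤ β / (α + β) by positivity)
    (by field_simp)
  simp only [smul_eq_mul] at hc
  have e1 : α / (α + β) * (a / α) + β / (α + β) * (b / β) = (a + b) / (α + β) := by field_simp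
  rw [e1] at hc
  have h2 : (a + b) ^ (d + 1) / (α + β) ^ d ≤ a ^ (d + 1) / α ^ d + b ^ (d + 1) / β ^ d := by
    have h3 := mul_le_mul_of_nonneg_left hc hαβ.le
    refine le_trans (le_of_eq ?_) (h3.trans (le_of_eq ?_))
    · rw [div_pow, pow_succ (α + β)]; field_simp
    · rw [div_pow, div_pow, pow_succ α, pow_succ β]; field_simp
  have h4 := h2.trans h
  have h5 : ζ ^ d ≤ (α + β) ^ d := by
    rw [div_le_div_iff_of_pos_left (by positivity) (by positivity) (by positivity)] at h4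
    exact h4
  exact le_of_pow_le_pow_left₀ (by omega) hαβ.le h5

/-- the gauge of Ball's body, up to a constant -/
noncomputable def gg (d : ℕ) (f : (ι → ℝ) → ℝ≥0∞) (x : ι → ℝ) : ℝ≥0∞ :=
  (Am d f x) ^ (-(d : ℝ)⁻¹)

theorem gg_add (d : ℕ) (hd : 1 ≤ d) {f : (ι → ℝ) → ℝ≥0∞} (hf : LogC f) (hm : Measurable f)
    (x y : ι → ℝ) (hx : x = 0 ∨ (Am d f x ≠ ∞ ∧ (⨆ u, Pm d f x u) ≠ ∞))
    (hy : y = 0 ∨ (Am d f y ≠ ∞ ∧ (⨆ u, Pm d f y u) ≠ ∞)) :
    gg d f (x + y) ≤ gg d f x + gg d f y := by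
  have hd0 : (0 : ℝ) < d := by exact_mod_cast hd
  rcases hx with rfl | ⟨hxt, hxS⟩
  · simp
  rcases hy with rfl | ⟨hyt, hyS⟩
  · simp
  rcases eq_or_ne (Am d f x) 0 with hx0 | hx0
  · have : gg d f x = ∞ := by rw [gg, hx0, ENNReal.zero_rpow_of_neg (by simpa using hd0)]
    rw [this]; simp
  rcases eq_or_ne (Am d f y) 0 with hy0 | hy0
  · have : gg d f y = ∞ := by rw [gg, hy0, ENNReal.zero_rpow_of_neg (by simpa using hd0)]
    rw [this]; simp
  rcases eq_or_ne (Am d f (x + y)) ∞ with hzt | hzt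
  · have : gg d f (x + y) = 0 := by rw [gg, hzt, ENNReal.top_rpow_of_neg (by simpa using hd0)]
    rw [this]; exact zero_le
  obtain ⟨a, b, ha, hb, h⟩ := Am_ineq d hd hf hm x y hx0 hy0 hxS hyS
  have hX : 0 < (Am d f x).toReal := ENNReal.toReal_pos hx0 hxt
  have hY : 0 < (Am d f y).toReal := ENNReal.toReal_pos hy0 hyt
  rw [← ENNReal.ofReal_toReal hxt, ← ENNReal.ofReal_toReal hyt, ← ENNReal.ofReal_toReal hzt,
    ← ENNReal.ofReal_mul (by positivity), ← ENNReal.ofReal_mul (by positivity),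
    ← ENNReal.ofReal_mul (by positivity), ← ENNReal.ofReal_add (by positivity) (by positivity)] at h
  have h' := (ENNReal.ofReal_le_ofReal_iff (by positivity)).1 h
  have hZ : 0 < (Am d f (x + y)).toReal := by
    by_contra hc
    have h0 : (Am d f (x + y)).toReal = 0 := le_antisymm (not_lt.1 hc) ENNReal.toReal_nonneg
    rw [h0, mul_zero] at h'
    have : 0 < a ^ (d + 1) * (Am d f x).toReal + b ^ (d + 1) * (Am d f y).toReal := by positivity
    linarith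
  have conv : ∀ z : ι → ℝ, Am d f z ≠ ∞ → 0 < (Am d f z).toReal →
      gg d f z = ENNReal.ofReal ((Am d f z).toReal ^ (-(d : ℝ)⁻¹)) := by
    intro z hzt hz
    rw [gg, ← ENNReal.ofReal_rpow_of_pos hz, ENNReal.ofReal_toReal hzt]
  have pw : ∀ t : ℝ, 0 < t → (t ^ (-(d : ℝ)⁻¹)) ^ d = t⁻¹ := by
    intro t ht
    rw [Real.rpow_neg ht.le, inv_pow, Real.rpow_inv_natCast_pow ht.le (by omega)]
  rw [conv x hxt hX, conv y hyt hY, conv (x + y) hzt hZ, ← ENNReal.ofReal_add (by positivity)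
    (by positivity)]
  refine ENNReal.ofReal_le_ofReal ?_
  refine real_step d hd ha hb (by positivity) (by positivity) (by positivity) ?_
  rw [pw _ hX, pw _ hY, pw _ hZ]
  simpa [div_inv_eq_mul] using h'

end Pool.Agent.X166.LW
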