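import Pool.Agent.X166.LW.A

/-!
# Marginals over coordinates and a Prekopa-Leindler inequality for coordinate subspaces
-/

set_option autoImplicit false

namespace Pool.Agent.X166.LW

open MeasureTheory Filter Topology
open scoped ENNReal

theorem lsc_lintegral {X Y : Type*} [TopologicalSpace X] [FirstCountableTopology X]
    [MeasurableSpace Y] (μ : Measure Y) (F : X → Y → ℝ≥0∞)
    (hF : ∀ y, LowerSemicontinuous (fun x => F x y)) (hm : ∀ x, Measurable (F x)) :
    LowerSemicontinuous (fun x => ∫⁻ y, F x y ∂μ) := by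
  intro x c hc
  by_contra hcon
  rw [Filter.not_eventually] at hcon
  obtain ⟨u, hu, hun⟩ := Filter.exists_seq_forall_of_frequently hcon
  have h1 : ∀ y, F x y ≤ liminf (fun n => F (u n) y) atTop := by
    intro y
    refine le_of_forall_lt fun a ha => ?_
    obtain ⟨b, hab, hb⟩ := exists_between ha
    refine hab.trans_le ?_
    refine Filter.le_liminf_of_le (by isBoundedDefault) ?_
    filter_upwards [hu.eventually (hF y x b hb)] with n hn using le_of_lt hn
  have h2 : ∫⁻ y, F x y ∂μ ≤ c := by
    calc ∫⁻ y, F x y ∂μ ≤ ∫⁻ y, liminf (fun n => F (u n) y) atTop ∂μ := lintegral_mono h1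
      _ ≤ liminf (fun n => ∫⁻ y, F (u n) y ∂μ) atTop := lintegral_liminf_le fun n => hm _
      _ ≤ c := by
          refine Filter.liminf_le_of_frequently_le ?_ (by isBoundedDefault)
          exact Filter.Frequently.of_forall fun n => not_lt.1 (hun n)
  exact absurd hc (not_lt.2 h2)

variable {ι : Type*} [Fintype ι] [DecidableEq ι]

/-- the integral over the coordinates in `A` -/
noncomputable abbrev L (A : Finset ι) (f : (ι → ℝ) → ℝ≥0∞) : (ι → ℝ) → ℝ≥0∞ :=
  lmarginal (fun _ : ι => (volume : Measure ℝ)) A f

theorem lsc_L {f : (ι → ℝ) → ℝ≥0∞} (hf : LowerSemicontinuous f) (A : Finset ι) :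
    LowerSemicontinuous (L A f) := by
  induction A using Finset.induction_on with
  | empty => simpa [L] using hf
  | insert i A hi ih =>
    have : L (insert i A) f = fun x => ∫⁻ t, L A f (Function.update x i t) := by
      funext x
      exact lmarginal_insert f hf.measurable hi x
    rw [this]
    refine lsc_lintegral _ _ (fun t => lsc_comp ih ?_) (fun x => ?_)
    · exact continuous_id.update i continuous_const
    · exact ih.measurable.comp (measurable_update x)

omit [Fintype ι] in
/-- Prekopa-Leindler for marginals -/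
theorem pl_marg (s : ℝ) (hs : 0 < s) (hs1 : s < 1) (f g h : (ι → ℝ) → ℝ≥0∞)
    (hf : Measurable f) (hg : Measurable g) (hh : Measurable h)
    (H : ∀ x y, f x ^ s * g y ^ (1 - s) ≤ h (s • x + (1 - s) • y)) (A : Finset ι) :
    ∀ x y, L A f x ^ s * L A g y ^ (1 - s) ≤ L A h (s • x + (1 - s) • y) := by
  induction A using Finset.induction_on with
  | empty => intro x y; simpa [L] using H x y
  | insert i A hi ih =>
    intro x y
    rw [L, L, L, lmarginal_insert f hf hi x, lmarginal_insert g hg hi y, lmarginal_insert h hh hi]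
    refine Pool.Agent.TH264.MP.pl1 s hs hs1 _ _ _ ((hf.lmarginal _).comp (measurable_update x))
      ((hg.lmarginal _).comp (measurable_update y)) ((hh.lmarginal _).comp (measurable_update _)) ?_
    intro t t'
    have h1 := ih (Function.update x i t) (Function.update y i t')
    have e : s • Function.update x i t + (1 - s) • Function.update y i t' =
        Function.update (s • x + (1 - s) • y) i (s * t + (1 - s) * t') := by
      funext k
      by_cases hk : k = i
      · subst hk; simp
      · simp [Function.update_of_ne hk]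
    rw [e] at h1
    exact h1

/-- **Reverse inequality for coordinate subspaces** -/
theorem coordPL {κ : Type*} [Fintype κ] (σ : Finset ι) (ρ : κ → Finset ι)
    (N : ℕ) (hN : 1 ≤ N) (hcov : ∀ i ∈ σ, (Finset.univ.filter fun j => i ∈ ρ j).card = N)
    (hsub : ∀ j, ρ j ⊆ σ) (h : (ι → ℝ) → ℝ≥0∞) (hl : LowerSemicontinuous h)
    (H : ∀ x : κ → ι → ℝ, (∀ j, ∀ i ∉ ρ j, x j i = 0) →
      ∏ j, h (x j) ^ ((N : ℝ)⁻¹) ≤ h ((N : ℝ)⁻¹ • ∑ j, x j)) :
    ∏ j, (L (ρ j) h 0) ^ ((N : ℝ)⁻¹) ≤ L σ h 0 := by
  classical
  have hN0 : (0 : ℝ) < N := by exact_mod_cast hN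
  have key : ∀ A : Finset ι, A ⊆ σ → ∀ x : κ → ι → ℝ, (∀ j, ∀ i ∉ ρ j, x j i = 0) →
      ∏ j, (L (A ∩ ρ j) h (x j)) ^ ((N : ℝ)⁻¹) ≤ L A h ((N : ℝ)⁻¹ • ∑ j, x j) := by
    intro A
    induction A using Finset.induction_on with
    | empty => intro _ x hx; simpa [L] using H x hx
    | insert i A hi ih =>
      intro hA x hx
      have hiσ : i ∈ σ := hA (Finset.mem_insert_self _ _)
      have hA' : A ⊆ σ := fun k hk => hA (Finset.mem_insert_of_mem hk)
      set J : Finset κ := Finset.univ.filter fun j => i ∈ ρ j with hJ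
      have hJc : J.card = N := hcov i hiσ
      have hJn : J.Nonempty := by
        rw [← Finset.card_pos, hJc]; omega
      have e1 : ∀ j ∈ J, L (insert i A ∩ ρ j) h (x j) =
          ∫⁻ t, L (A ∩ ρ j) h (Function.update (x j) i t) := by
        intro j hj
        have hij : i ∈ ρ j := (Finset.mem_filter.1 hj).2
        rw [Finset.insert_inter_of_mem hij]
        exact lmarginal_insert h hl.measurable (by simp [hi]) (x j)
      have e2 : ∀ j ∈ Jᶜ, L (insert i A ∩ ρ j) h (x j) = L (A ∩ ρ j) h (x j) := by
        intro j hj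
        have hij : i ∉ ρ j := by simpa [hJ] using hj
        rw [Finset.insert_inter_of_notMem hij]
      have p1 : ∏ j ∈ J, (L (insert i A ∩ ρ j) h (x j)) ^ ((N : ℝ)⁻¹) =
          ∏ j ∈ J, (∫⁻ t, L (A ∩ ρ j) h (Function.update (x j) i t)) ^ ((N : ℝ)⁻¹) :=
        Finset.prod_congr rfl (fun j hj => by rw [e1 j hj])
      have p2 : ∏ j ∈ Jᶜ, (L (insert i A ∩ ρ j) h (x j)) ^ ((N : ℝ)⁻¹) =
          ∏ j ∈ Jᶜ, (L (A ∩ ρ j) h (x j)) ^ ((N : ℝ)⁻¹) :=
        Finset.prod_congr rfl (fun j hj => by rw [e2 j hj])
      rw [← Finset.prod_mul_prod_compl J, mul_comm, p1, p2]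
      rw [show L (insert i A) h ((N : ℝ)⁻¹ • ∑ j, x j) =
        ∫⁻ t, L A h (Function.update ((N : ℝ)⁻¹ • ∑ j, x j) i t) from
        lmarginal_insert h hl.measurable hi _]
      refine plN_const J hJn (fun _ => (N : ℝ)⁻¹) (fun _ _ => by positivity)
        (by rw [Finset.sum_const, hJc, nsmul_eq_mul, mul_inv_cancel₀ hN0.ne'])
        (fun j t => L (A ∩ ρ j) h (Function.update (x j) i t))
        (fun j _ => lsc_comp (lsc_L hl _) (continuous_const.update i continuous_id)) _
        ((hl.measurable.lmarginal _).comp (measurable_update _)) _ ?_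
      intro t
      set x' : κ → ι → ℝ := fun j => if j ∈ J then Function.update (x j) i (t j) else x j with hx'
      have hx's : ∀ j, ∀ k ∉ ρ j, x' j k = 0 := by
        intro j k hk
        by_cases hj : j ∈ J
        · have hij : i ∈ ρ j := (Finset.mem_filter.1 hj).2
          have hki : k ≠ i := fun h => hk (h ▸ hij)
          simp [hx', hj, Function.update_of_ne hki, hx j k hk]
        · simp [hx', hj, hx j k hk]
      have h1 := ih hA' x' hx's
      have e3 : (N : ℝ)⁻¹ • ∑ j, x' j =
          Function.update ((N : ℝ)⁻¹ • ∑ j, x j) i (∑ j ∈ J, (N : ℝ)⁻¹ * t j) := by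
        funext k
        by_cases hk : k = i
        · subst hk
          rw [Function.update_self, Pi.smul_apply, Finset.sum_apply, ← Finset.mul_sum, smul_eq_mul]
          congr 1
          rw [← Finset.sum_add_sum_compl J]
          have a1 : ∑ j ∈ J, x' j k = ∑ j ∈ J, t j :=
            Finset.sum_congr rfl fun j hj => by simp [hx', hj]
          have a2 : ∑ j ∈ Jᶜ, x' j k = 0 := by
            refine Finset.sum_eq_zero fun j hj => ?_
            have hkj : k ∉ ρ j := by simpa [hJ] using hj
            exact hx's j k hkj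
          rw [a1, a2, add_zero]
        · rw [Function.update_of_ne hk, Pi.smul_apply, Pi.smul_apply, Finset.sum_apply,
            Finset.sum_apply]
          congr 1
          refine Finset.sum_congr rfl fun j _ => ?_
          by_cases hj : j ∈ J
          · simp [hx', hj, Function.update_of_ne hk]
          · simp [hx', hj]
      rw [e3] at h1
      refine le_trans (le_of_eq ?_) h1
      rw [← Finset.prod_mul_prod_compl J, mul_comm]
      congr 1
      · refine Finset.prod_congr rfl fun j hj => ?_
        simp [hx', hj]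
      · refine Finset.prod_congr rfl fun j hj => ?_
        have hj' : j ∉ J := by simpa using hj
        simp [hx', hj']
  have h1 := key σ (Finset.Subset.refl _) (fun _ => 0) (fun _ _ _ => rfl)
  simp only [Finset.sum_const_zero, smul_zero] at h1
  refine le_trans (le_of_eq ?_) h1
  refine Finset.prod_congr rfl fun j _ => ?_
  rw [Finset.inter_eq_right.2 (hsub j)]

end Pool.Agent.X166.LW
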