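import Pool.Agent.X166.LW.B
import Pool.Agent.X166.LW.C

/-!
# Comparison of integrals along rays
-/

set_option autoImplicit false

namespace Pool.Agent.X166.LW

open MeasureTheory Filter Topology Set
open scoped ENNReal

/-- `exp (-t)` on `[0, ∞]` -/
noncomputable def en (t : ℝ≥0∞) : ℝ≥0∞ := (EReal.exp (t : EReal))⁻¹

theorem en_top : en ∞ = 0 := by simp [en]

theorem en_zero : en 0 = 1 := by simp [en]

theorem en_ofReal (t : ℝ) (ht : 0 ≤ t) : en (ENNReal.ofReal t) = ENNReal.ofReal (Real.exp (-t)) := by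
  have h : ((ENNReal.ofReal t : ℝ≥0∞) : EReal) = ((t : ℝ) : EReal) := by
    rw [EReal.coe_ennreal_ofReal, max_eq_left ht]
  rw [en, h, EReal.exp_coe, Real.exp_neg, ENNReal.ofReal_inv_of_pos (Real.exp_pos t)]

theorem en_anti : Antitone en := by
  intro a b hab
  unfold en
  rw [ENNReal.inv_le_inv]
  exact EReal.exp_monotone (EReal.coe_ennreal_le_coe_ennreal_iff.2 hab)

theorem en_cont : Continuous en := by
  unfold en
  exact continuous_inv.comp (ENNReal.continuous_exp.comp continuous_coe_ennreal_ereal)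

theorem en_prod {κ : Type*} [Fintype κ] (g : κ → ℝ≥0∞) {w : ℝ} (hw : 0 < w) :
    ∏ j, en (g j) ^ w ≤ en (ENNReal.ofReal w * ∑ j, g j) := by
  by_cases h : ∃ j, g j = ∞
  · obtain ⟨j, hj⟩ := h
    rw [Finset.prod_eq_zero (Finset.mem_univ j)]
    · exact zero_le
    · rw [hj, en_top, ENNReal.zero_rpow_of_pos hw]
  · push Not at h
    have e1 : ∀ j, en (g j) ^ w = ENNReal.ofReal (Real.exp (-(w * (g j).toReal))) := by
      intro j
      conv_lhs => rw [← ENNReal.ofReal_toReal (h j)]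
      rw [en_ofReal _ ENNReal.toReal_nonneg, ENNReal.ofReal_rpow_of_pos (Real.exp_pos _),
        ← Real.exp_mul]
      congr 2; ring
    have e2 : ENNReal.ofReal w * ∑ j, g j = ENNReal.ofReal (w * ∑ j, (g j).toReal) := by
      rw [ENNReal.ofReal_mul hw.le, ENNReal.ofReal_sum_of_nonneg (fun j _ => ENNReal.toReal_nonneg)]
      congr 1
      exact Finset.sum_congr rfl fun j _ => (ENNReal.ofReal_toReal (h j)).symm
    rw [e2, en_ofReal _ (mul_nonneg hw.le (Finset.sum_nonneg fun j _ => ENNReal.toReal_nonneg))]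
    simp_rw [e1]
    rw [← ENNReal.ofReal_prod_of_nonneg (fun j _ => (Real.exp_pos _).le), ← Real.exp_sum]
    refine le_of_eq ?_
    rw [Finset.mul_sum, Finset.sum_neg_distrib]

theorem gam (k : ℕ) (hk : 1 ≤ k) (g : ℝ≥0∞) :
    ∫⁻ r in Ioi (0 : ℝ), ENNReal.ofReal (r ^ (k - 1)) * en (ENNReal.ofReal r * g) =
      ENNReal.ofReal ((Nat.factorial (k - 1) : ℕ) : ℝ) * g ^ (-(k : ℝ)) := by
  have hk0 : (0 : ℝ) < k := by exact_mod_cast hk
  rcases eq_or_ne g ∞ with rfl | hgt
  · rw [ENNReal.top_rpow_of_neg (by linarith), mul_zero]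
    rw [setLIntegral_congr_fun measurableSet_Ioi (g := fun _ => 0)]
    · simp
    · intro r hr
      have hr' : (0 : ℝ) < r := hr
      show ENNReal.ofReal (r ^ (k - 1)) * en (ENNReal.ofReal r * ∞) = 0
      rw [ENNReal.mul_top (by simpa using hr'), en_top, mul_zero]
  rcases eq_or_ne g 0 with rfl | hg0
  · rw [ENNReal.zero_rpow_of_neg (by linarith), ENNReal.mul_top (by
      simp [Nat.factorial_ne_zero])]
    rw [eq_top_iff]
    calc (∞ : ℝ≥0∞) = ∫⁻ r in Ioi (1 : ℝ), 1 := by simp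
      _ ≤ ∫⁻ r in Ioi (1 : ℝ), ENNReal.ofReal (r ^ (k - 1)) * en (ENNReal.ofReal r * 0) := by
          refine setLIntegral_mono' measurableSet_Ioi fun r hr => ?_
          have hr' : (1 : ℝ) < r := hr
          rw [mul_zero, en_zero, mul_one]
          rw [← ENNReal.ofReal_one]
          exact ENNReal.ofReal_le_ofReal (one_le_pow₀ hr'.le)
      _ ≤ _ := lintegral_mono_set (Ioi_subset_Ioi zero_le_one)
  · obtain ⟨γ, hγ, rfl⟩ : ∃ γ : ℝ, 0 < γ ∧ g = ENNReal.ofReal γ :=
      ⟨g.toReal, ENNReal.toReal_pos hg0 hgt, (ENNReal.ofReal_toReal hgt).symm⟩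
    have hint : ∫ t : ℝ in Ioi 0, t ^ ((k : ℝ) - 1) * Real.exp (-(γ * t)) =
        (1 / γ) ^ (k : ℝ) * Real.Gamma k := Real.integral_rpow_mul_exp_neg_mul_Ioi hk0 hγ
    have hI : IntegrableOn (fun t : ℝ => t ^ ((k : ℝ) - 1) * Real.exp (-(γ * t))) (Ioi 0) := by
      by_contra hc
      rw [integral_undef hc] at hint
      have : 0 < (1 / γ) ^ (k : ℝ) * Real.Gamma k :=
        mul_pos (by positivity) (Real.Gamma_pos_of_pos hk0)
      linarith
    have e1 : ∫⁻ r in Ioi (0 : ℝ), ENNReal.ofReal (r ^ (k - 1)) *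
        en (ENNReal.ofReal r * ENNReal.ofReal γ) =
        ∫⁻ r in Ioi (0 : ℝ), ENNReal.ofReal (r ^ ((k : ℝ) - 1) * Real.exp (-(γ * r))) := by
      refine setLIntegral_congr_fun measurableSet_Ioi fun r hr => ?_
      have hr' : (0 : ℝ) < r := hr
      show ENNReal.ofReal (r ^ (k - 1)) * en (ENNReal.ofReal r * ENNReal.ofReal γ) =
        ENNReal.ofReal (r ^ ((k : ℝ) - 1) * Real.exp (-(γ * r)))
      rw [← ENNReal.ofReal_mul hr'.le, en_ofReal _ (by positivity),
        ← ENNReal.ofReal_mul (by positivity)]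
      congr 2
      · rw [← Real.rpow_natCast, Nat.cast_sub hk, Nat.cast_one]
      · rw [mul_comm r γ]
    rw [e1, ← ofReal_integral_eq_lintegral_ofReal hI, hint]
    · have hG : Real.Gamma (k : ℝ) = ((Nat.factorial (k - 1) : ℕ) : ℝ) := by
        obtain ⟨n, rfl⟩ : ∃ n, k = n + 1 := ⟨k - 1, by omega⟩
        simpa using Real.Gamma_nat_eq_factorial n
      rw [hG, mul_comm, ENNReal.ofReal_mul (by positivity)]
      congr 1
      rw [ENNReal.ofReal_rpow_of_pos hγ]
      congr 1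
      rw [Real.rpow_neg hγ.le, one_div, Real.inv_rpow hγ.le]
    · refine (ae_restrict_mem measurableSet_Ioi).mono fun r hr => ?_
      have hr' : (0 : ℝ) < r := hr
      simp only [Pi.zero_apply]
      positivity

/-- monotonicity of normalised moments (Milman–Pajor) -/
theorem moment_mono (k d : ℕ) (hk : 1 ≤ k) (hkd : k ≤ d) (φ : ℝ → ℝ≥0∞) (hφ : Measurable φ)
    (h1 : ∀ r, 0 < r → φ r ≤ 1) :
    (k : ℝ≥0∞) * (∫⁻ r in Ioi (0 : ℝ), ENNReal.ofReal (r ^ (k - 1)) * φ r) ≤
      ((d : ℝ≥0∞) * (∫⁻ r in Ioi (0 : ℝ), ENNReal.ofReal (r ^ (d - 1)) * φ r)) ^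
        ((k : ℝ) / (d : ℝ)) := by
  have hk0 : (0 : ℝ) < k := by exact_mod_cast hk
  have hd0 : (0 : ℝ) < d := by exact_mod_cast (lt_of_lt_of_le hk hkd)
  have hd1 : 1 ≤ d := hk.trans hkd
  set Bk := ∫⁻ r in Ioi (0 : ℝ), ENNReal.ofReal (r ^ (k - 1)) * φ r with hBk
  set Bd := ∫⁻ r in Ioi (0 : ℝ), ENNReal.ofReal (r ^ (d - 1)) * φ r with hBd
  rcases eq_or_ne Bd ∞ with hB | hB
  · rw [hB, ENNReal.mul_top (by simpa using (by omega : d ≠ 0)),
      ENNReal.top_rpow_of_pos (by positivity)]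
    exact le_top
  rcases eq_or_ne Bd 0 with hB0 | hB0
  · have hz : ∀ᵐ r ∂(volume.restrict (Ioi (0 : ℝ))), ENNReal.ofReal (r ^ (k - 1)) * φ r = 0 := by
      have h2 : ∀ᵐ r ∂(volume.restrict (Ioi (0 : ℝ))), ENNReal.ofReal (r ^ (d - 1)) * φ r = 0 := by
        have := (lintegral_eq_zero_iff (μ := volume.restrict (Ioi (0 : ℝ)))
          (f := fun r => ENNReal.ofReal (r ^ (d - 1)) * φ r)
          ((ENNReal.measurable_ofReal.comp (measurable_id.pow_const _)).mul hφ)).1 hB0
        exact this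
      filter_upwards [h2, ae_restrict_mem measurableSet_Ioi] with r hr hr0
      have hr' : (0 : ℝ) < r := hr0
      rcases mul_eq_zero.1 hr with h | h
      · have : ENNReal.ofReal (r ^ (d - 1)) ≠ 0 := by
          rw [Ne, ENNReal.ofReal_eq_zero, not_le]; positivity
        exact absurd h this
      · rw [h, mul_zero]
    have : Bk = 0 := by rw [hBk, lintegral_congr_ae hz]; simp
    rw [this, mul_zero]; exact zero_le
  -- main case
  set a : ℝ := (d * Bd.toReal) ^ ((d : ℝ)⁻¹) with ha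
  have hBp : 0 < Bd.toReal := ENNReal.toReal_pos hB0 hB
  have ha0 : 0 < a := by positivity
  have had : a ^ d = d * Bd.toReal := by
    rw [ha, Real.rpow_inv_natCast_pow (by positivity) (by omega)]
  have hpt : ∀ r ∈ Ioi (0 : ℝ), ENNReal.ofReal (a ^ (d - k)) * (ENNReal.ofReal (r ^ (k - 1)) * φ r) +
      (Ioc (0 : ℝ) a).indicator (fun r => ENNReal.ofReal (r ^ (d - 1))) r ≤
      ENNReal.ofReal (r ^ (d - 1)) * φ r +
      (Ioc (0 : ℝ) a).indicator (fun r => ENNReal.ofReal (a ^ (d - k) * r ^ (k - 1))) r := by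
    intro r hr
    have hr' : (0 : ℝ) < r := hr
    rw [← mul_assoc, ← ENNReal.ofReal_mul (by positivity)]
    have er : r ^ (d - 1) = r ^ (d - k) * r ^ (k - 1) := by rw [← pow_add]; congr 1; omega
    rcases le_or_gt r a with hra | hra
    · have hm : r ∈ Ioc (0 : ℝ) a := ⟨hr', hra⟩
      rw [Set.indicator_of_mem hm, Set.indicator_of_mem hm]
      have hle : r ^ (d - 1) ≤ a ^ (d - k) * r ^ (k - 1) := by
        rw [er]; gcongr
      set t := φ r with ht
      have ht1 : t ≤ 1 := h1 r hr'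
      have htt : t + (1 - t) = 1 := add_tsub_cancel_of_le ht1
      calc ENNReal.ofReal (a ^ (d - k) * r ^ (k - 1)) * t + ENNReal.ofReal (r ^ (d - 1))
          = ENNReal.ofReal (a ^ (d - k) * r ^ (k - 1)) * t +
            ENNReal.ofReal (r ^ (d - 1)) * (t + (1 - t)) := by rw [htt, mul_one]
        _ = ENNReal.ofReal (r ^ (d - 1)) * t + (ENNReal.ofReal (a ^ (d - k) * r ^ (k - 1)) * t +
            ENNReal.ofReal (r ^ (d - 1)) * (1 - t)) := by ring
        _ ≤ ENNReal.ofReal (r ^ (d - 1)) * t + (ENNReal.ofReal (a ^ (d - k) * r ^ (k - 1)) * t +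
            ENNReal.ofReal (a ^ (d - k) * r ^ (k - 1)) * (1 - t)) := by
              gcongr
        _ = _ := by rw [← mul_add, htt, mul_one]
    · have hm : r ∉ Ioc (0 : ℝ) a := fun h => absurd h.2 (not_le.2 hra)
      rw [Set.indicator_of_notMem hm, Set.indicator_of_notMem hm, add_zero, add_zero]
      gcongr
      rw [er]
      gcongr
  have hmk : Measurable fun r : ℝ => ENNReal.ofReal (r ^ (k - 1)) * φ r :=
    (ENNReal.measurable_ofReal.comp (measurable_id.pow_const _)).mul hφ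
  have hmd : Measurable fun r : ℝ => ENNReal.ofReal (r ^ (d - 1)) * φ r :=
    (ENNReal.measurable_ofReal.comp (measurable_id.pow_const _)).mul hφ
  have hint := setLIntegral_mono' (μ := volume) measurableSet_Ioi hpt
  rw [lintegral_add_left (hmk.const_mul _), lintegral_add_left hmd,
    lintegral_const_mul _ hmk, ← hBk, ← hBd] at hint
  have mono : ∀ (c : ℝ) (n : ℕ), 0 ≤ c → ∫⁻ r in Ioi (0 : ℝ),
      (Ioc (0 : ℝ) a).indicator (fun r => ENNReal.ofReal (c * r ^ n)) r =
      ENNReal.ofReal (c * (a ^ (n + 1) / (n + 1))) := by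
    intro c n hc
    rw [lintegral_indicator measurableSet_Ioc, Measure.restrict_restrict measurableSet_Ioc]
    have : Ioc (0 : ℝ) a ∩ Ioi 0 = Ioc 0 a := by
      ext r; simp only [mem_inter_iff, mem_Ioc, mem_Ioi]; tauto
    rw [this, ← ofReal_integral_eq_lintegral_ofReal]
    · rw [integral_const_mul, ← intervalIntegral.integral_of_le ha0.le, integral_pow]
      simp
    · exact ((continuous_const.mul (continuous_pow n)).integrableOn_Icc).mono_set
        Ioc_subset_Icc_self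
    · refine (ae_restrict_mem measurableSet_Ioc).mono fun r hr => ?_
      have := hr.1
      simp only [Pi.zero_apply]
      positivity
  have m1 := mono 1 (d - 1) zero_le_one
  have m2 := mono (a ^ (d - k)) (k - 1) (by positivity)
  simp only [one_mul] at m1
  rw [m1, m2] at hint
  have c1 : ((d - 1 : ℕ) : ℝ) + 1 = d := by rw [Nat.cast_sub hd1]; simp
  have c2 : ((k - 1 : ℕ) : ℝ) + 1 = k := by rw [Nat.cast_sub hk]; simp
  rw [c1, c2, Nat.sub_add_cancel hd1, Nat.sub_add_cancel hk] at hint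
  have hBd' : Bd = ENNReal.ofReal (a ^ d / d) := by
    rw [had, mul_comm, mul_div_assoc, div_self hd0.ne', mul_one, ENNReal.ofReal_toReal hB]
  rw [hBd', add_comm (ENNReal.ofReal (a ^ (d - k)) * Bk)] at hint
  have hint' := (ENNReal.add_le_add_iff_left ENNReal.ofReal_ne_top).1 hint
  rw [ENNReal.ofReal_mul (by positivity)] at hint'
  have hint2 : Bk ≤ ENNReal.ofReal (a ^ k / k) := by
    rwa [ENNReal.mul_le_mul_iff_right (by
      rw [Ne, ENNReal.ofReal_eq_zero, not_le]; positivity) ENNReal.ofReal_ne_top] at hint'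
  rw [hBd']
  calc (k : ℝ≥0∞) * Bk ≤ (k : ℝ≥0∞) * ENNReal.ofReal (a ^ k / k) := by gcongr
    _ = ENNReal.ofReal (a ^ k) := by
        rw [← ENNReal.ofReal_natCast k, ← ENNReal.ofReal_mul hk0.le]
        congr 1; field_simp
    _ = _ := by
        rw [← ENNReal.ofReal_natCast d, ← ENNReal.ofReal_mul hd0.le]
        have : (d : ℝ) * (a ^ d / d) = a ^ d := by field_simp
        rw [this, ENNReal.ofReal_rpow_of_pos (by positivity)]
        congr 1
        rw [← Real.rpow_natCast a d, ← Real.rpow_mul ha0.le, ← Real.rpow_natCast a k]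
        congr 1; field_simp

end Pool.Agent.X166.LW
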