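import Pool.Agent.X166.LW.E

/-!
# The exponential of the gauge of Ball's body
-/

set_option autoImplicit false

namespace Pool.Agent.X166.LW

open MeasureTheory Filter Topology Set
open scoped ENNReal

section
variable {ι : Type*}

theorem Am_smul (d : ℕ) (hd : 1 ≤ d) {f : (ι → ℝ) → ℝ≥0∞} (hf : Measurable f) (x : ι → ℝ)
    {r : ℝ} (hr : 0 < r) : Am d f (r • x) = ENNReal.ofReal ((r ^ d)⁻¹) * Am d f x := by
  set F : ℝ → ℝ≥0∞ := (Ioi (0 : ℝ)).indicator
    (fun u => ENNReal.ofReal (u ^ (d - 1)) * f (u • x)) with hF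
  have hFm : Measurable F := by
    refine Measurable.indicator (Measurable.mul ?_ (hf.comp ?_)) measurableSet_Ioi
    · exact ENNReal.measurable_ofReal.comp (measurable_id.pow_const _)
    · exact measurable_id.smul_const x
  have e1 : ∀ t, F (r * t) = (Ioi (0 : ℝ)).indicator
      (fun t => ENNReal.ofReal (r ^ (d - 1)) * (ENNReal.ofReal (t ^ (d - 1)) * f (t • r • x))) t := by
    intro t
    rcases le_or_gt t 0 with ht | ht
    · have h1 : r * t ∉ Ioi (0 : ℝ) := by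
        rw [mem_Ioi, not_lt]; exact mul_nonpos_of_nonneg_of_nonpos hr.le ht
      have h2 : t ∉ Ioi (0 : ℝ) := not_lt.2 ht
      rw [hF, Set.indicator_of_notMem h1, Set.indicator_of_notMem h2]
    · have h1 : r * t ∈ Ioi (0 : ℝ) := mul_pos hr ht
      have h2 : t ∈ Ioi (0 : ℝ) := ht
      rw [hF, Set.indicator_of_mem h1, Set.indicator_of_mem h2, ← mul_assoc,
        ← ENNReal.ofReal_mul (by positivity), mul_pow, smul_smul, mul_comm t r]
  have e2 := lint_scale hFm hr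
  simp_rw [e1] at e2
  rw [lintegral_indicator measurableSet_Ioi, hF, lintegral_indicator measurableSet_Ioi] at e2
  have hm2 : Measurable fun t : ℝ => ENNReal.ofReal (t ^ (d - 1)) * f (t • r • x) := by
    refine Measurable.mul ?_ (hf.comp ?_)
    · exact ENNReal.measurable_ofReal.comp (measurable_id.pow_const _)
    · exact measurable_id.smul_const _
  rw [lintegral_const_mul _ hm2] at e2
  have e3 : ENNReal.ofReal (r ^ (d - 1)) * Am d f (r • x) = ENNReal.ofReal r⁻¹ * Am d f x := e2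
  have e4 : ENNReal.ofReal ((r ^ (d - 1))⁻¹) * (ENNReal.ofReal (r ^ (d - 1)) * Am d f (r • x)) =
      Am d f (r • x) := by
    rw [← mul_assoc, ← ENNReal.ofReal_mul (by positivity), inv_mul_cancel₀ (by positivity)]
    simp
  rw [← e4, e3, ← mul_assoc, ← ENNReal.ofReal_mul (by positivity), ← mul_inv]
  congr 3
  rw [← pow_succ]; congr 1; omega

/-- the gauge -/
noncomputable def Gg (c : ℝ≥0∞) (d : ℕ) (f : (ι → ℝ) → ℝ≥0∞) (x : ι → ℝ) : ℝ≥0∞ :=
  (c * Am d f x) ^ (-(d : ℝ)⁻¹)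

/-- its exponential -/
noncomputable def hh (c : ℝ≥0∞) (d : ℕ) (f : (ι → ℝ) → ℝ≥0∞) (x : ι → ℝ) : ℝ≥0∞ :=
  en (Gg c d f x)

theorem Gg_smul (c : ℝ≥0∞) (d : ℕ) (hd : 1 ≤ d) {f : (ι → ℝ) → ℝ≥0∞} (hf : Measurable f)
    (x : ι → ℝ) {r : ℝ} (hr : 0 < r) : Gg c d f (r • x) = ENNReal.ofReal r * Gg c d f x := by
  unfold Gg
  rw [Am_smul d hd hf x hr, mul_left_comm, ENNReal.mul_rpow_eq_ite]
  have h1 : ENNReal.ofReal ((r ^ d)⁻¹) ≠ 0 := by
    rw [Ne, ENNReal.ofReal_eq_zero, not_le]; positivity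
  have h2 : ENNReal.ofReal ((r ^ d)⁻¹) ≠ ∞ := ENNReal.ofReal_ne_top
  simp only [h1, h2, false_and, or_self, if_false]
  congr 1
  rw [ENNReal.ofReal_rpow_of_pos (by positivity)]
  congr 1
  have hd0 : (d : ℝ) ≠ 0 := by
    have : (0 : ℝ) < d := by exact_mod_cast hd
    exact this.ne'
  rw [Real.inv_rpow (by positivity), ← Real.rpow_natCast, ← Real.rpow_mul hr.le, mul_neg,
    mul_inv_cancel₀ hd0, Real.rpow_neg hr.le, Real.rpow_one, inv_inv]

theorem Gg_eq (c : ℝ≥0∞) (hc0 : c ≠ 0) (hct : c ≠ ∞) (d : ℕ) (f : (ι → ℝ) → ℝ≥0∞) (x : ι → ℝ) :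
    Gg c d f x = c ^ (-(d : ℝ)⁻¹) * gg d f x := by
  unfold Gg gg
  rw [ENNReal.mul_rpow_eq_ite]
  simp [hc0, hct]

theorem Am_hh (c : ℝ≥0∞) (d k : ℕ) (hd : 1 ≤ d) (hk : 1 ≤ k) {f : (ι → ℝ) → ℝ≥0∞}
    (hf : Measurable f) (x : ι → ℝ) :
    Am k (hh c d f) x = ENNReal.ofReal ((Nat.factorial (k - 1) : ℕ) : ℝ) *
      (c * Am d f x) ^ ((k : ℝ) / d) := by
  have hd0 : (0 : ℝ) < d := by exact_mod_cast hd
  have e1 : Am k (hh c d f) x = ∫⁻ r in Ioi (0 : ℝ), ENNReal.ofReal (r ^ (k - 1)) *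
      en (ENNReal.ofReal r * Gg c d f x) := by
    refine setLIntegral_congr_fun measurableSet_Ioi fun r hr => ?_
    show ENNReal.ofReal (r ^ (k - 1)) * en (Gg c d f (r • x)) = _
    rw [Gg_smul c d hd hf x hr]
  rw [e1, gam k hk, Gg, ← ENNReal.rpow_mul]
  congr 2
  field_simp

theorem Am_hh_self (c : ℝ≥0∞) (d : ℕ) (hd : 1 ≤ d) {f : (ι → ℝ) → ℝ≥0∞}
    (hf : Measurable f) (x : ι → ℝ) :
    Am d (hh c d f) x = ENNReal.ofReal ((Nat.factorial (d - 1) : ℕ) : ℝ) * (c * Am d f x) := by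
  have hd0 : (0 : ℝ) < d := by exact_mod_cast hd
  rw [Am_hh c d d hd hd hf, div_self hd0.ne', ENNReal.rpow_one]

/-- the comparison of moments: `M` is a bound for `f`, `c = d / M` -/
theorem Am_le (M : ℝ≥0∞) (hM0 : M ≠ 0) (hMt : M ≠ ∞) (d k : ℕ) (hk : 1 ≤ k) (hkd : k ≤ d)
    {f : (ι → ℝ) → ℝ≥0∞} (hf : Measurable f) (hfM : ∀ x, f x ≤ M) (x : ι → ℝ) :
    Am k f x ≤ M * ((Nat.factorial k : ℕ) : ℝ≥0∞)⁻¹ * Am k (hh (d * M⁻¹) d f) x := by
  have hd : 1 ≤ d := hk.trans hkd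
  have key := moment_mono k d hk hkd (fun r => M⁻¹ * f (r • x))
    ((hf.comp (measurable_id.smul_const x)).const_mul _) (fun r _ => by
      calc M⁻¹ * f (r • x) ≤ M⁻¹ * M := by gcongr; exact hfM _
        _ = 1 := ENNReal.inv_mul_cancel hM0 hMt)
  have pull : ∀ n : ℕ, ∫⁻ r in Ioi (0 : ℝ), ENNReal.ofReal (r ^ (n - 1)) * (M⁻¹ * f (r • x)) =
      M⁻¹ * Am n f x := by
    intro n
    unfold Am
    rw [← lintegral_const_mul]
    · refine lintegral_congr fun r => by ring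
    · refine Measurable.mul ?_ (hf.comp (measurable_id.smul_const x))
      exact ENNReal.measurable_ofReal.comp (measurable_id.pow_const _)
  rw [pull, pull, ← mul_assoc, ← mul_assoc] at key
  rw [Am_hh _ d k hd hk hf]
  have hk0 : (k : ℝ≥0∞) ≠ 0 := by simpa using (by omega : k ≠ 0)
  have hkt : (k : ℝ≥0∞) ≠ ∞ := ENNReal.natCast_ne_top k
  have hfac : ((Nat.factorial k : ℕ) : ℝ≥0∞)⁻¹ *
      ENNReal.ofReal ((Nat.factorial (k - 1) : ℕ) : ℝ) = (k : ℝ≥0∞)⁻¹ := by
    obtain ⟨n, rfl⟩ : ∃ n, k = n + 1 := ⟨k - 1, by omega⟩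
    rw [Nat.factorial_succ, Nat.add_sub_cancel, ENNReal.ofReal_natCast, Nat.cast_mul,
      ENNReal.mul_inv (Or.inl hk0) (Or.inl hkt), mul_assoc, ENNReal.inv_mul_cancel, mul_one]
    · simpa using Nat.factorial_ne_zero n
    · exact ENNReal.natCast_ne_top _
  calc Am k f x = M * (k : ℝ≥0∞)⁻¹ * (k * M⁻¹ * Am k f x) := by
        have : M * (k : ℝ≥0∞)⁻¹ * (k * M⁻¹ * Am k f x) =
          (M * M⁻¹) * ((k : ℝ≥0∞)⁻¹ * k) * Am k f x := by ring
        rw [this, ENNReal.mul_inv_cancel hM0 hMt, ENNReal.inv_mul_cancel hk0 hkt, one_mul, one_mul]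
    _ ≤ M * (k : ℝ≥0∞)⁻¹ * (d * M⁻¹ * Am d f x) ^ ((k : ℝ) / d) := by gcongr
    _ = _ := by
        rw [← hfac]; ring

end

section polar
variable {κ : Type*} [Fintype κ]

theorem meas_Am {ι : Type*} (d : ℕ) {f : (ι → ℝ) → ℝ≥0∞} (hf : Measurable f)
    (hj : Measurable (fun p : (ι → ℝ) × ℝ => f (p.2 • p.1))) : Measurable (Am d f) := by
  have h : Measurable (fun p : (ι → ℝ) × ℝ => ENNReal.ofReal (p.2 ^ (d - 1)) * f (p.2 • p.1)) :=
    (ENNReal.measurable_ofReal.comp (measurable_snd.pow_const _)).mul hj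
  exact h.lintegral_prod_right'

theorem lint_smul {F : (κ → ℝ) → ℝ≥0∞} (hF : Measurable F) {r : ℝ}
    (hr : 0 < r) : ∫⁻ x, F (r • x) = ENNReal.ofReal ((r ^ Fintype.card κ)⁻¹) * ∫⁻ x, F x := by
  have hm : Measurable (fun x : κ → ℝ => r • x) := measurable_id.const_smul r
  have h0 : Measure.map (fun x : κ → ℝ => r • x) volume =
      ENNReal.ofReal |(r ^ Module.finrank ℝ (κ → ℝ))⁻¹| • (volume : Measure (κ → ℝ)) :=
    Measure.map_addHaar_smul (volume : Measure (κ → ℝ)) hr.ne'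
  have h1 := lintegral_map (μ := (volume : Measure (κ → ℝ))) hF hm
  rw [h0, lintegral_smul_measure, smul_eq_mul] at h1
  rw [← h1, Module.finrank_fintype_fun_eq_card, abs_of_pos (by positivity)]

/-- the shell -/
def shell (κ : Type*) [Fintype κ] : Set (κ → ℝ) := {x | 1 ≤ ‖x‖ ∧ ‖x‖ < Real.exp 1}

theorem meas_shell : MeasurableSet (shell κ) :=
  (measurableSet_le measurable_const measurable_norm).inter
    (measurableSet_lt measurable_norm measurable_const)

theorem shell_int {y : κ → ℝ} (hy : y ≠ 0) :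
    ∫⁻ r in Ioi (0 : ℝ), ENNReal.ofReal r⁻¹ * (shell κ).indicator 1 (r⁻¹ • y) = 1 := by
  have hn : 0 < ‖y‖ := norm_pos_iff.2 hy
  have he : 0 < Real.exp 1 := Real.exp_pos 1
  have hlt : ‖y‖ / Real.exp 1 < ‖y‖ := div_lt_self hn (by
    have := Real.add_one_lt_exp (x := 1) one_ne_zero; linarith)
  have e1 : ∀ r ∈ Ioi (0 : ℝ), ENNReal.ofReal r⁻¹ * (shell κ).indicator 1 (r⁻¹ • y) =
      (Ioc (‖y‖ / Real.exp 1) ‖y‖).indicator (fun r => ENNReal.ofReal r⁻¹) r := by
    intro r hr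
    have hr' : (0 : ℝ) < r := hr
    have hnorm : ‖r⁻¹ • y‖ = ‖y‖ / r := by
      rw [norm_smul, Real.norm_eq_abs, abs_of_pos (inv_pos.2 hr')]; field_simp
    by_cases h : r ∈ Ioc (‖y‖ / Real.exp 1) ‖y‖
    · have hm : r⁻¹ • y ∈ shell κ := by
        refine ⟨?_, ?_⟩
        · rw [hnorm, le_div_iff₀ hr', one_mul]; exact h.2
        · rw [hnorm, div_lt_iff₀ hr']
          have := (div_lt_iff₀ he).1 h.1
          linarith
      rw [Set.indicator_of_mem hm, Set.indicator_of_mem h]; simp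
    · have hm : r⁻¹ • y ∉ shell κ := by
        intro hm
        apply h
        obtain ⟨h1, h2⟩ := hm
        rw [hnorm] at h1 h2
        rw [le_div_iff₀ hr', one_mul] at h1
        rw [div_lt_iff₀ hr'] at h2
        exact ⟨(div_lt_iff₀ he).2 (by linarith), h1⟩
      rw [Set.indicator_of_notMem hm, Set.indicator_of_notMem h]; simp
  rw [setLIntegral_congr_fun measurableSet_Ioi e1, lintegral_indicator measurableSet_Ioc,
    Measure.restrict_restrict measurableSet_Ioc]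
  have hsub : Ioc (‖y‖ / Real.exp 1) ‖y‖ ∩ Ioi 0 = Ioc (‖y‖ / Real.exp 1) ‖y‖ := by
    refine Set.inter_eq_left.2 fun r hr => ?_
    exact lt_trans (by positivity) hr.1
  rw [hsub, ← ofReal_integral_eq_lintegral_ofReal]
  · rw [← intervalIntegral.integral_of_le hlt.le, integral_inv_of_pos (by positivity) hn]
    have : ‖y‖ / (‖y‖ / Real.exp 1) = Real.exp 1 := by field_simp
    rw [this, Real.log_exp, ENNReal.ofReal_one]
  · refine (ContinuousOn.integrableOn_Icc ?_).mono_set Ioc_subset_Icc_self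
    refine continuousOn_inv₀.mono fun r hr => ?_
    have : 0 < r := lt_of_lt_of_le (by positivity) hr.1
    exact this.ne'
  · refine (ae_restrict_mem measurableSet_Ioc).mono fun r hr => ?_
    have : 0 < r := lt_trans (by positivity) hr.1
    simp only [Pi.zero_apply]; positivity

/-- polar coordinates without the sphere -/
theorem polar (hk : 1 ≤ Fintype.card κ) {φ : (κ → ℝ) → ℝ≥0∞} (hφ : Measurable φ) :
    ∫⁻ y, φ y = ∫⁻ x, (shell κ).indicator 1 x * Am (Fintype.card κ) φ x := by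
  obtain ⟨n, hn⟩ : ∃ n, Fintype.card κ = n + 1 := ⟨Fintype.card κ - 1, by omega⟩
  have hsh : Measurable ((shell κ).indicator (1 : (κ → ℝ) → ℝ≥0∞)) :=
    measurable_one.indicator meas_shell
  have hsm : Measurable (fun p : (κ → ℝ) × ℝ => p.2 • p.1) := measurable_snd.smul measurable_fst
  have hsm2 : Measurable (fun p : ℝ × (κ → ℝ) => p.1⁻¹ • p.2) :=
    measurable_fst.inv.smul measurable_snd
  -- the right side as an iterated integral
  have e1 : ∫⁻ x, (shell κ).indicator 1 x * Am (Fintype.card κ) φ x =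
      ∫⁻ x, ∫⁻ r in Ioi (0 : ℝ), (shell κ).indicator 1 x *
        (ENNReal.ofReal (r ^ n) * φ (r • x)) := by
    refine lintegral_congr fun x => ?_
    have h0 : Measurable fun r : ℝ => ENNReal.ofReal (r ^ n) * φ (r • x) :=
      (ENNReal.measurable_ofReal.comp (measurable_id.pow_const _)).mul
        (hφ.comp (measurable_id.smul_const x))
    rw [lintegral_const_mul _ h0, hn]
    rfl
  have hA : Measurable (Function.uncurry fun (x : κ → ℝ) (r : ℝ) => (shell κ).indicator 1 x *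
      (ENNReal.ofReal (r ^ n) * φ (r • x))) := by
    have a1 : Measurable fun p : (κ → ℝ) × ℝ => (shell κ).indicator (1 : (κ → ℝ) → ℝ≥0∞) p.1 :=
      hsh.comp measurable_fst
    have a2 : Measurable fun p : (κ → ℝ) × ℝ => ENNReal.ofReal (p.2 ^ n) :=
      ENNReal.measurable_ofReal.comp (measurable_snd.pow_const _)
    have a3 : Measurable fun p : (κ → ℝ) × ℝ => φ (p.2 • p.1) := hφ.comp hsm
    exact a1.mul (a2.mul a3)
  rw [e1, lintegral_lintegral_swap hA.aemeasurable]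
  -- scaling
  have e2 : ∀ r ∈ Ioi (0 : ℝ), ∫⁻ x : κ → ℝ, (shell κ).indicator 1 x *
      (ENNReal.ofReal (r ^ n) * φ (r • x)) =
      ∫⁻ y : κ → ℝ, (ENNReal.ofReal r⁻¹ * (shell κ).indicator 1 (r⁻¹ • y)) * φ y := by
    intro r hr
    have hr' : (0 : ℝ) < r := hr
    have hsr : Measurable fun y : κ → ℝ => (shell κ).indicator (1 : (κ → ℝ) → ℝ≥0∞) (r⁻¹ • y) :=
      hsh.comp (measurable_id.const_smul r⁻¹)
    have hFm : Measurable fun y : κ → ℝ => (shell κ).indicator (1 : (κ → ℝ) → ℝ≥0∞) (r⁻¹ • y) *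
        (ENNReal.ofReal (r ^ n) * φ y) := hsr.mul (hφ.const_mul _)
    have h1 := lint_smul hFm hr'
    have h2 : ∀ x : κ → ℝ, (shell κ).indicator (1 : (κ → ℝ) → ℝ≥0∞) (r⁻¹ • r • x) *
        (ENNReal.ofReal (r ^ n) * φ (r • x)) = (shell κ).indicator 1 x *
        (ENNReal.ofReal (r ^ n) * φ (r • x)) := by
      intro x
      rw [smul_smul, inv_mul_cancel₀ hr'.ne', one_smul]
    rw [lintegral_congr h2] at h1
    rw [h1, ← lintegral_const_mul _ hFm]
    refine lintegral_congr fun y => ?_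
    have h3 : ENNReal.ofReal (r ^ Fintype.card κ)⁻¹ * ENNReal.ofReal (r ^ n) =
        ENNReal.ofReal r⁻¹ := by
      rw [← ENNReal.ofReal_mul (by positivity)]
      congr 1
      rw [hn, pow_succ]; field_simp
    rw [← h3]; ring
  rw [setLIntegral_congr_fun measurableSet_Ioi e2]
  have hB : Measurable (Function.uncurry fun (r : ℝ) (y : κ → ℝ) =>
      (ENNReal.ofReal r⁻¹ * (shell κ).indicator 1 (r⁻¹ • y)) * φ y) := by
    have a1 : Measurable fun p : ℝ × (κ → ℝ) =>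
      (shell κ).indicator (1 : (κ → ℝ) → ℝ≥0∞) (p.1⁻¹ • p.2) := hsh.comp hsm2
    have a2 : Measurable fun p : ℝ × (κ → ℝ) => ENNReal.ofReal p.1⁻¹ :=
      ENNReal.measurable_ofReal.comp measurable_fst.inv
    have a3 : Measurable fun p : ℝ × (κ → ℝ) => φ p.2 := hφ.comp measurable_snd
    exact (a2.mul a1).mul a3
  rw [lintegral_lintegral_swap hB.aemeasurable]
  have hne : ∀ᵐ y : κ → ℝ, y ≠ 0 := by
    haveI : Nonempty κ := Fintype.card_pos_iff.1 (by omega)
    rw [ae_iff]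
    have : {a : κ → ℝ | ¬ a ≠ 0} = {0} := by ext a; simp
    rw [this]; exact measure_singleton 0
  refine lintegral_congr_ae ?_
  filter_upwards [hne] with y hy
  have hm : Measurable fun r : ℝ => ENNReal.ofReal r⁻¹ *
      (shell κ).indicator (1 : (κ → ℝ) → ℝ≥0∞) (r⁻¹ • y) :=
    (ENNReal.measurable_ofReal.comp measurable_inv).mul (hsh.comp (measurable_inv.smul_const y))
  rw [lintegral_mul_const _ hm, shell_int hy, one_mul]

theorem polar_le (hk : 1 ≤ Fintype.card κ) {φ ψ : (κ → ℝ) → ℝ≥0∞} (hφ : Measurable φ)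
    (hψ : Measurable ψ) (C : ℝ≥0∞)
    (h : ∀ x, Am (Fintype.card κ) φ x ≤ C * Am (Fintype.card κ) ψ x) :
    ∫⁻ y, φ y ≤ C * ∫⁻ y, ψ y := by
  have hmm : Measurable fun x => (shell κ).indicator (1 : (κ → ℝ) → ℝ≥0∞) x *
      Am (Fintype.card κ) ψ x :=
    (measurable_one.indicator meas_shell).mul
      (meas_Am _ hψ (hψ.comp (measurable_snd.smul measurable_fst)))
  rw [polar hk hφ, polar hk hψ, ← lintegral_const_mul _ hmm]
  · refine lintegral_mono fun x => ?_
    show (shell κ).indicator 1 x * Am (Fintype.card κ) φ x ≤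
      C * ((shell κ).indicator 1 x * Am (Fintype.card κ) ψ x)
    calc (shell κ).indicator 1 x * Am (Fintype.card κ) φ x
        ≤ (shell κ).indicator 1 x * (C * Am (Fintype.card κ) ψ x) := by gcongr; exact h x
      _ = _ := by ring

end polar

end Pool.Agent.X166.LW
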