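import Pool.Agent.X166.LW.F

/-!
# The inequality for open convex sets
-/

set_option autoImplicit false

namespace Pool.Agent.X166.LW

open MeasureTheory Filter Topology Set
open scoped ENNReal

variable {ι : Type*} [Fintype ι] [DecidableEq ι]

omit [Fintype ι] in
theorem upd_smul (ρ : Finset ι) (r : ℝ) (y : ρ → ℝ) :
    Function.updateFinset (0 : ι → ℝ) ρ (r • y) = r • Function.updateFinset (0 : ι → ℝ) ρ y := by
  funext i
  by_cases h : i ∈ ρ <;> simp [Function.updateFinset, h]

omit [Fintype ι] in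
/-- comparison of marginals at the origin -/
theorem L_le (ρ : Finset ι) (hρ : 1 ≤ ρ.card) {φ ψ : (ι → ℝ) → ℝ≥0∞} (hφ : Measurable φ)
    (hψ : Measurable ψ) (C : ℝ≥0∞)
    (h : ∀ x, Am ρ.card φ x ≤ C * Am ρ.card ψ x) : L ρ φ 0 ≤ C * L ρ ψ 0 := by
  have hm : Measurable (fun y : ρ → ℝ => Function.updateFinset (0 : ι → ℝ) ρ y) :=
    measurable_updateFinset
  have hc : Fintype.card ρ = ρ.card := Fintype.card_coe ρ
  have key := polar_le (κ := ρ) (by rw [hc]; exact hρ) (hφ.comp hm) (hψ.comp hm) C (by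
    intro y
    rw [hc]
    have e : ∀ χ : (ι → ℝ) → ℝ≥0∞, Am ρ.card (χ ∘ fun y : ρ → ℝ =>
        Function.updateFinset (0 : ι → ℝ) ρ y) y =
        Am ρ.card χ (Function.updateFinset (0 : ι → ℝ) ρ y) := by
      intro χ
      unfold Am
      refine lintegral_congr fun r => ?_
      simp only [Function.comp_apply]
      rw [upd_smul]
    rw [e φ, e ψ]
    exact h _)
  exact key

/-- the data of the open case -/
structure OpenBody (U : Set (ι → ℝ)) (R : ℝ) : Prop where
  isOpen : IsOpen U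
  convex : Convex ℝ U
  bdd : ∀ z ∈ U, ∀ i, |z i| ≤ R
  ne : U.Nonempty
  nonneg : 0 ≤ R

/-- indicator function -/
noncomputable def ind (U : Set (ι → ℝ)) : (ι → ℝ) → ℝ≥0∞ := U.indicator fun _ => 1

omit [Fintype ι] [DecidableEq ι] in
theorem ind_lsc {U : Set (ι → ℝ)} (hU : IsOpen U) : LowerSemicontinuous (ind U) :=
  hU.lowerSemicontinuous_indicator zero_le_one

omit [Fintype ι] [DecidableEq ι] in
theorem ind_logc {U : Set (ι → ℝ)} (hU : Convex ℝ U) : LogC (ind U) := by
  intro s hs hs1 x y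
  by_cases hx : x ∈ U
  · by_cases hy : y ∈ U
    · have : s • x + (1 - s) • y ∈ U := hU hx hy hs.le (by linarith) (by ring)
      simp [ind, hx, hy, this]
    · simp [ind, hy, ENNReal.zero_rpow_of_pos (by linarith : (0 : ℝ) < 1 - s)]
  · simp [ind, hx, ENNReal.zero_rpow_of_pos hs]

/-- section function -/
noncomputable abbrev ff (U : Set (ι → ℝ)) (σ : Finset ι) : (ι → ℝ) → ℝ≥0∞ := L σᶜ (ind U)

theorem ff_lsc {U : Set (ι → ℝ)} (hU : IsOpen U) (σ : Finset ι) :
    LowerSemicontinuous (ff U σ) := lsc_L (ind_lsc hU) _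

theorem ff_logc {U : Set (ι → ℝ)} (hU : IsOpen U) (hc : Convex ℝ U) (σ : Finset ι) :
    LogC (ff U σ) := fun s hs hs1 =>
  pl_marg s hs hs1 _ _ _ (ind_lsc hU).measurable (ind_lsc hU).measurable (ind_lsc hU).measurable
    (ind_logc hc s hs hs1) _

omit [Fintype ι] in
/-- volume of a section -/
theorem ff_eq {U : Set (ι → ℝ)} (hU : MeasurableSet U) (A : Finset ι) (x : ι → ℝ) :
    L A (ind U) x = volume {y : A → ℝ | Function.updateFinset x A y ∈ U} := by
  have hm : Measurable (fun y : A → ℝ => Function.updateFinset x A y) :=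
    measurable_updateFinset
  have : L A (ind U) x = ∫⁻ y : A → ℝ, ((fun y : A → ℝ => Function.updateFinset x A y) ⁻¹' U).indicator
      (fun _ => 1) y := rfl
  rw [this, lintegral_indicator (hm hU)]
  simp
  rfl

omit [Fintype ι] in
theorem cont_upd (x : ι → ℝ) (A : Finset ι) :
    Continuous (fun y : A → ℝ => Function.updateFinset x A y) := by
  refine continuous_pi fun i => ?_
  by_cases h : i ∈ A
  · simp only [Function.updateFinset, h, dif_pos]
    exact continuous_apply _
  · simp only [Function.updateFinset, h, dif_neg, not_false_eq_true]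
    exact continuous_const

theorem ff_eq' {U : Set (ι → ℝ)} (hU : IsOpen U) (σ : Finset ι) (x : ι → ℝ) :
    ff U σ x = volume {y : ↥(σᶜ) → ℝ | Function.updateFinset x σᶜ y ∈ U} :=
  ff_eq hU.measurableSet _ _

theorem ff_bdd {U : Set (ι → ℝ)} {R : ℝ} (h : OpenBody U R) (σ : Finset ι) :
    (⨆ x, ff U σ x) ≠ ∞ := by
  have hb : ∀ x, ff U σ x ≤ volume (Metric.closedBall (0 : (↥(σᶜ) → ℝ)) R) := by
    intro x
    rw [ff_eq' h.isOpen]
    refine measure_mono fun y hy => ?_
    rw [mem_closedBall_zero_iff, pi_norm_le_iff_of_nonneg h.nonneg]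
    intro i
    have := h.bdd _ hy i
    simp only [Function.updateFinset, i.2, dif_pos] at this
    exact this
  refine ne_top_of_le_ne_top ?_ (iSup_le hb)
  exact (measure_closedBall_lt_top).ne

theorem ff_pos {U : Set (ι → ℝ)} {R : ℝ} (h : OpenBody U R) (σ : Finset ι) :
    (⨆ x, ff U σ x) ≠ 0 := by
  obtain ⟨z, hz⟩ := h.ne
  have h1 : 0 < ff U σ z := by
    rw [ff_eq' h.isOpen]
    refine IsOpen.measure_pos _ ?_ ⟨fun i => z i, ?_⟩
    · exact h.isOpen.preimage (cont_upd _ _)
    · have : Function.updateFinset z σᶜ (fun i => z i) = z := by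
        funext i; simp [Function.updateFinset]
      simp only [mem_ofPred_eq]
      rw [this]; exact hz
  intro h0
  exact absurd (le_iSup (ff U σ) z) (by rw [h0, not_le]; exact h1)

/-- points supported on `σ` -/
def supp (σ : Finset ι) (x : ι → ℝ) : Prop := ∀ i ∉ σ, x i = 0

theorem ff_ray {U : Set (ι → ℝ)} {R : ℝ} (h : OpenBody U R) (σ : Finset ι) {x : ι → ℝ}
    (hx : supp σ x) (hx0 : x ≠ 0) : ∃ T : ℝ, 0 < T ∧ ∀ r : ℝ, T < r → ff U σ (r • x) = 0 := by
  obtain ⟨i, hi⟩ : ∃ i, x i ≠ 0 := by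
    by_contra hc; push Not at hc; exact hx0 (funext hc)
  have hiσ : i ∈ σ := by by_contra hc; exact hi (hx i hc)
  have hR : 0 ≤ R := h.nonneg
  refine ⟨(R + 1) / |x i|, by positivity, fun r hr => ?_⟩
  rw [ff_eq' h.isOpen]
  have : {y : ↥(σᶜ) → ℝ | Function.updateFinset (r • x) σᶜ y ∈ U} = ∅ := by
    refine Set.eq_empty_of_forall_notMem fun y hy => ?_
    have h1 := h.bdd _ hy i
    have h2 : i ∉ σᶜ := by simpa using hiσ
    simp only [Function.updateFinset, h2, dif_neg, not_false_eq_true, Pi.smul_apply, smul_eq_mul,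
      abs_mul] at h1
    have h3 : 0 < |x i| := abs_pos.2 hi
    have h4 : R + 1 < r * |x i| := (div_lt_iff₀ h3).1 hr
    have h5 : r ≤ |r| := le_abs_self r
    nlinarith
  rw [this, measure_empty]

theorem ff_fin {U : Set (ι → ℝ)} {R : ℝ} (h : OpenBody U R) (σ : Finset ι) (d : ℕ) {x : ι → ℝ}
    (hx : supp σ x) :
    x = 0 ∨ (Am d (ff U σ) x ≠ ∞ ∧ (⨆ u, Pm d (ff U σ) x u) ≠ ∞) := by
  rcases eq_or_ne x 0 with hx0 | hx0
  · exact Or.inl hx0
  obtain ⟨T, hT, hT'⟩ := ff_ray h σ hx hx0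
  right
  set M := ⨆ x, ff U σ x with hM
  have hMt : M ≠ ∞ := ff_bdd h σ
  have hle : ∀ z, ff U σ z ≤ M := fun z => le_iSup (ff U σ) z
  constructor
  · have h1 : Am d (ff U σ) x ≤ ∫⁻ r in Ioc (0 : ℝ) T, ENNReal.ofReal (T ^ (d - 1)) * M := by
      unfold Am
      rw [← lintegral_indicator measurableSet_Ioi, ← lintegral_indicator measurableSet_Ioc]
      refine lintegral_mono fun r => ?_
      by_cases hr0 : r ∈ Ioi (0 : ℝ)
      · rw [Set.indicator_of_mem hr0]
        by_cases hr : r ≤ T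
        · have hm : r ∈ Ioc (0 : ℝ) T := ⟨hr0, hr⟩
          rw [Set.indicator_of_mem hm]
          have hr0' : (0 : ℝ) < r := hr0
          gcongr
          exact hle _
        · rw [hT' r (not_le.1 hr)]; simp
      · rw [Set.indicator_of_notMem hr0]; exact zero_le
    refine ne_top_of_le_ne_top ?_ h1
    rw [setLIntegral_const]
    exact ENNReal.mul_ne_top (ENNReal.mul_ne_top ENNReal.ofReal_ne_top hMt)
      (by simp)
  · have h1 : (⨆ u, Pm d (ff U σ) x u) ≤ ENNReal.ofReal (T ^ (d + 1)) * M := by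
      refine iSup_le fun u => ?_
      unfold Pm
      by_cases hu : u ∈ Ioi (0 : ℝ)
      · rw [Set.indicator_of_mem hu]
        have hu' : (0 : ℝ) < u := hu
        by_cases huT : u⁻¹ ≤ T
        · have : (u ^ (d + 1))⁻¹ ≤ T ^ (d + 1) := by
            rw [← inv_pow]; gcongr
          gcongr
          exact hle _
        · rw [hT' _ (not_le.1 huT)]; simp
      · rw [Set.indicator_of_notMem hu]; exact zero_le
    exact ne_top_of_le_ne_top (ENNReal.mul_ne_top ENNReal.ofReal_ne_top hMt) h1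

end Pool.Agent.X166.LW
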