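import Pool.Agent.X166.LW.G

/-!
# The inequality for open convex sets, conclusion
-/

set_option autoImplicit false

namespace Pool.Agent.X166.LW

open MeasureTheory Filter Topology Set
open scoped ENNReal

variable {ι : Type*} [Fintype ι] [DecidableEq ι]

theorem hh_lsc {f : (ι → ℝ) → ℝ≥0∞} (hf : LowerSemicontinuous f) (c : ℝ≥0∞) (hc : c ≠ ∞) (d : ℕ) :
    LowerSemicontinuous (hh c d f) := by
  have h1 : LowerSemicontinuous (Am d f) := by
    unfold Am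
    refine lsc_lintegral _ _ (fun r => ?_) (fun x => ?_)
    · exact lsc_mul lowerSemicontinuous_const (lsc_comp hf (continuous_const_smul r))
    · exact (ENNReal.measurable_ofReal.comp (measurable_id.pow_const _)).mul
        (hf.measurable.comp (measurable_id.smul_const x))
  have h2 : Continuous fun a : ℝ≥0∞ => en ((c * a) ^ (-(d : ℝ)⁻¹)) :=
    en_cont.comp (ENNReal.continuous_rpow_const.comp (ENNReal.continuous_const_mul hc))
  have h3 : Monotone fun a : ℝ≥0∞ => en ((c * a) ^ (-(d : ℝ)⁻¹)) := by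
    intro a b hab
    refine en_anti ?_
    rw [ENNReal.rpow_neg, ENNReal.rpow_neg]
    exact ENNReal.inv_le_inv.2 (ENNReal.rpow_le_rpow (mul_le_mul' le_rfl hab) (by positivity))
  exact h2.comp_lowerSemicontinuous h1 h3

theorem Gg_add {U : Set (ι → ℝ)} {R : ℝ} (h : OpenBody U R) (σ : Finset ι) (c : ℝ≥0∞)
    (hc0 : c ≠ 0) (hct : c ≠ ∞) (d : ℕ) (hd : 1 ≤ d) (x y : ι → ℝ) (hx : supp σ x)
    (hy : supp σ y) :
    Gg c d (ff U σ) (x + y) ≤ Gg c d (ff U σ) x + Gg c d (ff U σ) y := by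
  rw [Gg_eq c hc0 hct, Gg_eq c hc0 hct, Gg_eq c hc0 hct, ← mul_add]
  gcongr
  exact gg_add d hd (ff_logc h.isOpen h.convex σ) (ff_lsc h.isOpen σ).measurable x y
    (ff_fin h σ d hx) (ff_fin h σ d hy)

theorem hh_hyp {κ : Type*} [Fintype κ] [Nonempty κ] {U : Set (ι → ℝ)} {R : ℝ}
    (h : OpenBody U R) (σ : Finset ι) (c : ℝ≥0∞)
    (hc0 : c ≠ 0) (hct : c ≠ ∞) (d : ℕ) (hd : 1 ≤ d) (N : ℕ) (hN : 1 ≤ N)
    (x : κ → ι → ℝ) (hx : ∀ j, supp σ (x j)) :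
    ∏ j, hh c d (ff U σ) (x j) ^ ((N : ℝ)⁻¹) ≤ hh c d (ff U σ) ((N : ℝ)⁻¹ • ∑ j, x j) := by
  have hN0 : (0 : ℝ) < N := by exact_mod_cast hN
  refine (en_prod (fun j => Gg c d (ff U σ) (x j)) (inv_pos.2 hN0)).trans ?_
  refine en_anti ?_
  rw [Gg_smul c d hd (ff_lsc h.isOpen σ).measurable _ (inv_pos.2 hN0)]
  gcongr
  exact Finset.le_sum_nonempty_of_subadditive_on_pred (Gg c d (ff U σ)) (supp σ)
    (fun a b ha hb => Gg_add h σ c hc0 hct d hd a b ha hb)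
    (fun a b ha hb i hi => by simp [ha i hi, hb i hi]) x Finset.univ Finset.univ_nonempty
    (fun j _ => hx j)

/-- the comparison for one coordinate subspace -/
theorem cmp_one {U : Set (ι → ℝ)} {R : ℝ} (h : OpenBody U R) (σ ρ : Finset ι) (hρ : ρ ⊆ σ)
    (hσ : 1 ≤ σ.card) :
    L ρ (ff U σ) 0 ≤ (⨆ x, ff U σ x) * ((Nat.factorial ρ.card : ℕ) : ℝ≥0∞)⁻¹ *
      L ρ (hh (σ.card * (⨆ x, ff U σ x)⁻¹) σ.card (ff U σ)) 0 := by
  set M := ⨆ x, ff U σ x with hM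
  have hMt : M ≠ ∞ := ff_bdd h σ
  have hM0 : M ≠ 0 := ff_pos h σ
  have hle : ∀ z, ff U σ z ≤ M := fun z => le_iSup (ff U σ) z
  have hfm := (ff_lsc h.isOpen σ).measurable
  have hct : ((σ.card : ℕ) : ℝ≥0∞) * M⁻¹ ≠ ∞ :=
    ENNReal.mul_ne_top (ENNReal.natCast_ne_top _) (ENNReal.inv_ne_top.2 hM0)
  have hc0 : ((σ.card : ℕ) : ℝ≥0∞) * M⁻¹ ≠ 0 :=
    mul_ne_zero (by simpa using (by omega : σ.card ≠ 0)) (ENNReal.inv_ne_zero.2 hMt)
  rcases Nat.eq_zero_or_pos ρ.card with hk | hk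
  · have hρe : ρ = ∅ := Finset.card_eq_zero.1 hk
    subst hρe
    simp only [L, lmarginal_empty, Finset.card_empty, Nat.factorial_zero, Nat.cast_one, inv_one,
      mul_one]
    rcases eq_or_ne (ff U σ 0) 0 with h0 | h0
    · rw [h0]
      exact zero_le
    · have hA : Am σ.card (ff U σ) 0 = ∞ := by
        unfold Am
        simp only [smul_zero]
        have hmm : Measurable fun r : ℝ => ENNReal.ofReal (r ^ (σ.card - 1)) :=
          ENNReal.measurable_ofReal.comp (measurable_id.pow_const _)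
        rw [lintegral_mul_const _ hmm]
        have h1 : ∫⁻ r in Ioi (0 : ℝ), ENNReal.ofReal (r ^ (σ.card - 1)) = ∞ := by
          rw [eq_top_iff]
          calc (∞ : ℝ≥0∞) = ∫⁻ r in Ioi (1 : ℝ), 1 := by simp
            _ ≤ ∫⁻ r in Ioi (1 : ℝ), ENNReal.ofReal (r ^ (σ.card - 1)) := by
                refine setLIntegral_mono' measurableSet_Ioi fun r hr => ?_
                have hr' : (1 : ℝ) < r := hr
                rw [← ENNReal.ofReal_one]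
                exact ENNReal.ofReal_le_ofReal (one_le_pow₀ hr'.le)
            _ ≤ _ := lintegral_mono_set (Ioi_subset_Ioi zero_le_one)
        rw [h1, ENNReal.top_mul h0]
      have hd0 : (0 : ℝ) < (σ.card : ℝ) := by exact_mod_cast hσ
      have hG : hh (σ.card * M⁻¹) σ.card (ff U σ) 0 = 1 := by
        unfold hh Gg
        rw [hA, ENNReal.mul_top hc0, ENNReal.top_rpow_of_neg (by simpa using hd0), en_zero]
      rw [hG, mul_one]
      exact hle 0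
  · refine L_le ρ hk hfm (hh_lsc (ff_lsc h.isOpen σ) _ hct _).measurable _ fun x => ?_
    exact Am_le M hM0 hMt σ.card ρ.card hk (Finset.card_le_card hρ) hfm hle x

theorem cmp_all {U : Set (ι → ℝ)} {R : ℝ} (h : OpenBody U R) (σ : Finset ι)
    (hσ : 1 ≤ σ.card) :
    L σ (hh (σ.card * (⨆ x, ff U σ x)⁻¹) σ.card (ff U σ)) 0 ≤
      ((Nat.factorial σ.card : ℕ) : ℝ≥0∞) * (⨆ x, ff U σ x)⁻¹ * L σ (ff U σ) 0 := by
  set M := ⨆ x, ff U σ x with hM
  have hMt : M ≠ ∞ := ff_bdd h σ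
  have hM0 : M ≠ 0 := ff_pos h σ
  have hfm := (ff_lsc h.isOpen σ).measurable
  have hct : ((σ.card : ℕ) : ℝ≥0∞) * M⁻¹ ≠ ∞ :=
    ENNReal.mul_ne_top (ENNReal.natCast_ne_top _) (ENNReal.inv_ne_top.2 hM0)
  refine L_le σ hσ (hh_lsc (ff_lsc h.isOpen σ) _ hct _).measurable hfm _ fun x => ?_
  rw [Am_hh_self _ σ.card hσ hfm]
  obtain ⟨n, hn⟩ : ∃ n, σ.card = n + 1 := ⟨σ.card - 1, by omega⟩
  rw [hn, Nat.factorial_succ, Nat.add_sub_cancel, ENNReal.ofReal_natCast, Nat.cast_mul]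
  exact le_of_eq (by ring)

/-- the inequality for open bounded convex sets -/
theorem open_case {κ : Type*} [Fintype κ] [Nonempty κ] {U : Set (ι → ℝ)} {R : ℝ}
    (h : OpenBody U R) (σ : Finset ι) (hσ : 1 ≤ σ.card) (ρ : κ → Finset ι)
    (hsub : ∀ j, ρ j ⊆ σ) (N : ℕ) (hN : 1 ≤ N)
    (hcov : ∀ i ∈ σ, (Finset.univ.filter fun j => i ∈ ρ j).card = N) :
    ∏ j, L (ρ j) (ff U σ) 0 ≤
      (∏ j, (⨆ x, ff U σ x) * ((Nat.factorial (ρ j).card : ℕ) : ℝ≥0∞)⁻¹) *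
      (((Nat.factorial σ.card : ℕ) : ℝ≥0∞) * (⨆ x, ff U σ x)⁻¹ * L σ (ff U σ) 0) ^ N := by
  set M := ⨆ x, ff U σ x with hM
  have hMt : M ≠ ∞ := ff_bdd h σ
  have hM0 : M ≠ 0 := ff_pos h σ
  have hct : ((σ.card : ℕ) : ℝ≥0∞) * M⁻¹ ≠ ∞ :=
    ENNReal.mul_ne_top (ENNReal.natCast_ne_top _) (ENNReal.inv_ne_top.2 hM0)
  have hc0 : ((σ.card : ℕ) : ℝ≥0∞) * M⁻¹ ≠ 0 :=
    mul_ne_zero (by simpa using (by omega : σ.card ≠ 0)) (ENNReal.inv_ne_zero.2 hMt)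
  have hN0 : (0 : ℝ) < N := by exact_mod_cast hN
  set H := hh (σ.card * M⁻¹) σ.card (ff U σ) with hH
  have key := coordPL σ ρ N hN hcov hsub H (hh_lsc (ff_lsc h.isOpen σ) _ hct _) (by
    intro x hx
    exact hh_hyp h σ _ hc0 hct σ.card hσ N hN x
      (fun j i hi => hx j i (fun hij => hi (hsub j hij))))
  have key2 : ∏ j, L (ρ j) H 0 ≤ (L σ H 0) ^ N := by
    have h1 := ENNReal.rpow_le_rpow key hN0.le
    rw [← ENNReal.rpow_natCast, ← ENNReal.prod_rpow_of_nonneg hN0.le] at *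
    refine le_trans (le_of_eq ?_) h1
    refine Finset.prod_congr rfl fun j _ => ?_
    rw [← ENNReal.rpow_mul, inv_mul_cancel₀ hN0.ne', ENNReal.rpow_one]
  calc ∏ j, L (ρ j) (ff U σ) 0
      ≤ ∏ j, (M * ((Nat.factorial (ρ j).card : ℕ) : ℝ≥0∞)⁻¹ * L (ρ j) H 0) :=
        Finset.prod_le_prod' fun j _ => cmp_one h σ (ρ j) (hsub j) hσ
    _ = (∏ j, M * ((Nat.factorial (ρ j).card : ℕ) : ℝ≥0∞)⁻¹) * ∏ j, L (ρ j) H 0 :=
        Finset.prod_mul_distrib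
    _ ≤ (∏ j, M * ((Nat.factorial (ρ j).card : ℕ) : ℝ≥0∞)⁻¹) * (L σ H 0) ^ N := by gcongr
    _ ≤ _ := by
        gcongr
        exact cmp_all h σ hσ

end Pool.Agent.X166.LW
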