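import Pool.Agent.X166.LW.H

/-!
# Sections of convex bodies
-/

set_option autoImplicit false

namespace Pool.Agent.X166.LW

open MeasureTheory Filter Topology Set
open scoped ENNReal

variable {ι : Type*} [Fintype ι] [DecidableEq ι]

/-- the `(|ι| - |τ|)`-dimensional volume of the section of `K` through `x` in the directions of the
coordinates outside `τ`, as an extended real -/
noncomputable def secE (K : Set (ι → ℝ)) (τ : Finset ι) (x : ι → ℝ) : ℝ≥0∞ :=
  volume {y : ↥(τᶜ) → ℝ | Function.updateFinset x τᶜ y ∈ K}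

theorem secE_eq {K : Set (ι → ℝ)} (hK : MeasurableSet K) (τ : Finset ι) (x : ι → ℝ) :
    L τᶜ (ind K) x = secE K τ x := ff_eq hK _ _

theorem secE_mono {K K' : Set (ι → ℝ)} (h : K ⊆ K') (τ : Finset ι) (x : ι → ℝ) :
    secE K τ x ≤ secE K' τ x := measure_mono fun _ hy => h hy

theorem ind_meas {K : Set (ι → ℝ)} (hK : MeasurableSet K) : Measurable (ind K) :=
  measurable_const.indicator hK

theorem sec_sub {K : Set (ι → ℝ)} (hK : MeasurableSet K) {σ τ : Finset ι} (h : τ ⊆ σ)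
    (x : ι → ℝ) : L (σ \ τ) (L σᶜ (ind K)) x = secE K τ x := by
  rw [← secE_eq hK]
  have e : τᶜ = (σ \ τ) ∪ σᶜ := by
    ext i
    simp only [Finset.mem_compl, Finset.mem_union, Finset.mem_sdiff]
    by_cases hi : i ∈ σ
    · simp [hi]
    · have : i ∉ τ := fun h' => hi (h h')
      simp [hi, this]
  have hd : Disjoint (σ \ τ) σᶜ := by
    rw [Finset.disjoint_left]
    intro i hi hi'
    simp only [Finset.mem_sdiff, Finset.mem_compl] at hi hi'
    exact hi' hi.1
  have := lmarginal_union (fun _ : ι => (volume : Measure ℝ)) (ind K) (ind_meas hK) hd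
  rw [e]
  exact (congrFun this x).symm

theorem vol_eq {K : Set (ι → ℝ)} (hK : MeasurableSet K) (x : ι → ℝ) :
    L Finset.univ (ind K) x = volume K := by
  rw [L, lmarginal_univ]
  show ∫⁻ x, ind K x ∂(Measure.pi fun _ : ι => (volume : Measure ℝ)) = volume K
  rw [← volume_pi]
  unfold ind
  rw [lintegral_indicator hK]; simp

theorem vol_sub {K : Set (ι → ℝ)} (hK : MeasurableSet K) (σ : Finset ι) (x : ι → ℝ) :
    L σ (L σᶜ (ind K)) x = volume K := by
  have hd : Disjoint σ σᶜ := disjoint_compl_right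
  have := lmarginal_union (fun _ : ι => (volume : Measure ℝ)) (ind K) (ind_meas hK) hd
  rw [← vol_eq hK x]
  have e : (Finset.univ : Finset ι) = σ ∪ σᶜ := by simp
  rw [e]
  exact (congrFun this x).symm

/-- the inequality for open bounded convex sets -/
theorem open_case' {κ : Type*} [Fintype κ] [Nonempty κ] {U : Set (ι → ℝ)} {R : ℝ}
    (h : OpenBody U R) (σ : Finset ι) (hσ : 1 ≤ σ.card) (τ : κ → Finset ι)
    (hsub : ∀ j, τ j ⊆ σ) (N : ℕ) (hN : 1 ≤ N) (hNm : N ≤ Fintype.card κ)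
    (hcov : ∀ i ∈ σ, (Finset.univ.filter fun j => i ∈ σ \ τ j).card = N) :
    (∏ j, ((Nat.factorial (σ \ τ j).card : ℕ) : ℝ≥0∞)) * ∏ j, secE U (τ j) 0 ≤
      (⨆ x, secE U σ x) ^ (Fintype.card κ - N) *
      (((Nat.factorial σ.card : ℕ) : ℝ≥0∞) * volume U) ^ N := by
  have hm := h.isOpen.measurableSet
  have key := open_case h σ hσ (fun j => σ \ τ j) (fun j => Finset.sdiff_subset) N hN hcov
  have hMt : (⨆ x, ff U σ x) ≠ ∞ := ff_bdd h σ
  have hM0 : (⨆ x, ff U σ x) ≠ 0 := ff_pos h σ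
  have e0 : (⨆ x, ff U σ x) = ⨆ x, secE U σ x := iSup_congr fun x => secE_eq hm σ x
  rw [e0] at key hMt hM0
  set M := ⨆ x, secE U σ x with hM
  have e1 : ∀ j, L (σ \ τ j) (ff U σ) 0 = secE U (τ j) 0 := fun j => sec_sub hm (hsub j) 0
  have e2 : L σ (ff U σ) 0 = volume U := vol_sub hm σ 0
  rw [e2, Finset.prod_congr rfl (fun j _ => e1 j), Finset.prod_mul_distrib, Finset.prod_const,
    Finset.card_univ] at key
  have hF0 : ∀ j, ((Nat.factorial (σ \ τ j).card : ℕ) : ℝ≥0∞) ≠ 0 := fun j => by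
    simpa using Nat.factorial_ne_zero _
  have e3 : (∏ j, ((Nat.factorial (σ \ τ j).card : ℕ) : ℝ≥0∞)) *
      ∏ j, ((Nat.factorial (σ \ τ j).card : ℕ) : ℝ≥0∞)⁻¹ = 1 := by
    rw [← Finset.prod_mul_distrib]
    exact Finset.prod_eq_one fun j _ => ENNReal.mul_inv_cancel (hF0 j) (ENNReal.natCast_ne_top _)
  have e4 : M ^ Fintype.card κ * M⁻¹ ^ N = M ^ (Fintype.card κ - N) := by
    conv_lhs => rw [← Nat.sub_add_cancel hNm, pow_add, mul_assoc, ← mul_pow,
      ENNReal.mul_inv_cancel hM0 hMt, one_pow, mul_one]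
  calc (∏ j, ((Nat.factorial (σ \ τ j).card : ℕ) : ℝ≥0∞)) * ∏ j, secE U (τ j) 0
      ≤ (∏ j, ((Nat.factorial (σ \ τ j).card : ℕ) : ℝ≥0∞)) *
        (M ^ Fintype.card κ * (∏ j, ((Nat.factorial (σ \ τ j).card : ℕ) : ℝ≥0∞)⁻¹) *
        (((Nat.factorial σ.card : ℕ) : ℝ≥0∞) * M⁻¹ * volume U) ^ N) := by gcongr
    _ = ((∏ j, ((Nat.factorial (σ \ τ j).card : ℕ) : ℝ≥0∞)) *
        ∏ j, ((Nat.factorial (σ \ τ j).card : ℕ) : ℝ≥0∞)⁻¹) * (M ^ Fintype.card κ * M⁻¹ ^ N) *
        (((Nat.factorial σ.card : ℕ) : ℝ≥0∞) * volume U) ^ N := by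
          rw [mul_pow, mul_pow, mul_pow]; ring
    _ = _ := by rw [e3, e4, one_mul]

/-! ### Homothetic copies of the interior -/

/-- the homothetic copy of the interior of `K` -/
def Ue (K : Set (ι → ℝ)) (p : ι → ℝ) (t : ℝ) : Set (ι → ℝ) := {z | p + t • (z - p) ∈ interior K}

theorem Ue_body {K : Set (ι → ℝ)} (hKc : IsCompact K) (hK : Convex ℝ K) {p : ι → ℝ}
    (hp : p ∈ interior K) {t : ℝ} (ht : 0 < t) : ∃ R, OpenBody (Ue K p t) R := by
  obtain ⟨r, hr⟩ := hKc.isBounded.exists_norm_le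
  have hr0 : 0 ≤ r := (norm_nonneg _).trans (hr p (interior_subset hp))
  refine ⟨r + t⁻¹ * (2 * r), ?_, ?_, ?_, ?_, by positivity⟩
  · exact isOpen_interior.preimage (by fun_prop)
  · intro z1 h1 z2 h2 a b ha hb hab
    have h3 := hK.interior h1 h2 ha hb hab
    show p + t • (a • z1 + b • z2 - p) ∈ interior K
    have e : p + t • (a • z1 + b • z2 - p) = a • (p + t • (z1 - p)) + b • (p + t • (z2 - p)) := by
      have hb' : b = 1 - a := by linarith
      subst hb'
      module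
    rw [e]; exact h3
  · intro z hz i
    have h1 : ‖p + t • (z - p)‖ ≤ r := hr _ (interior_subset hz)
    have h2 : |(p + t • (z - p)) i| ≤ r := (norm_le_pi_norm _ i).trans h1
    have h3 : |p i| ≤ r := (norm_le_pi_norm p i).trans (hr p (interior_subset hp))
    have e : z i = p i + t⁻¹ * ((p + t • (z - p)) i - p i) := by
      simp only [Pi.add_apply, Pi.smul_apply, Pi.sub_apply, smul_eq_mul]
      field_simp; ring
    rw [e]
    have ht' : 0 < t⁻¹ := inv_pos.2 ht
    calc |p i + t⁻¹ * ((p + t • (z - p)) i - p i)|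
        ≤ |p i| + |t⁻¹ * ((p + t • (z - p)) i - p i)| := abs_add_le _ _
      _ = |p i| + t⁻¹ * |(p + t • (z - p)) i - p i| := by rw [abs_mul, abs_of_pos ht']
      _ ≤ r + t⁻¹ * (2 * r) := by
          have : |(p + t • (z - p)) i - p i| ≤ |(p + t • (z - p)) i| + |p i| := abs_sub _ _
          gcongr
          linarith
  · refine ⟨p, ?_⟩
    show p + t • (p - p) ∈ interior K
    simpa using hp

theorem sub_Ue {K : Set (ι → ℝ)} (hK : Convex ℝ K) {p : ι → ℝ}
    (hp : p ∈ interior K) {t : ℝ} (ht : 0 < t) (ht1 : t < 1) : K ⊆ Ue K p t := by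
  intro z hz
  show p + t • (z - p) ∈ interior K
  have h := hK.combo_interior_self_mem_interior hp hz (sub_pos.2 ht1) ht.le (by ring)
  have e : p + t • (z - p) = (1 - t) • p + t • z := by module
  rw [e]; exact h

theorem vol_scale {κ : Type*} [Fintype κ] (B : Set (κ → ℝ)) (q : κ → ℝ) {t : ℝ} (ht : 0 < t) :
    volume {y : κ → ℝ | q + t • (y - q) ∈ B} =
      ENNReal.ofReal ((t⁻¹) ^ Fintype.card κ) * volume B := by
  have e : {y : κ → ℝ | q + t • (y - q) ∈ B} =
      (fun y => t • y) ⁻¹' ((fun y => y + (q - t • q)) ⁻¹' B) := by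
    ext y
    simp only [mem_ofPred_eq, mem_preimage]
    have : q + t • (y - q) = t • y + (q - t • q) := by module
    rw [this]
  rw [e, Measure.addHaar_preimage_smul _ ht.ne', measure_preimage_add_right,
    Module.finrank_fintype_fun_eq_card, abs_of_pos (by positivity), inv_pow]

theorem sec_scale {K : Set (ι → ℝ)} (σ : Finset ι) (p : ι → ℝ) {t : ℝ} (ht : 0 < t)
    (x : ι → ℝ) : secE (Ue K p t) σ x ≤
      ENNReal.ofReal ((t⁻¹) ^ (σᶜ).card) * ⨆ x, secE K σ x := by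
  set q : ↥(σᶜ) → ℝ := fun i => p i with hq
  have e : {y : ↥(σᶜ) → ℝ | Function.updateFinset x σᶜ y ∈ Ue K p t} =
      {y : ↥(σᶜ) → ℝ | q + t • (y - q) ∈ {w : ↥(σᶜ) → ℝ |
        Function.updateFinset (p + t • (x - p)) σᶜ w ∈ interior K}} := by
    ext y
    simp only [mem_ofPred_eq, Ue]
    have : p + t • (Function.updateFinset x σᶜ y - p) =
        Function.updateFinset (p + t • (x - p)) σᶜ (q + t • (y - q)) := by
      funext i
      by_cases h : i ∈ σᶜ
      · simp [Function.updateFinset, h, hq]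
      · simp [Function.updateFinset, h]
    rw [this]
  unfold secE
  rw [e, vol_scale _ _ ht, Fintype.card_coe]
  gcongr
  refine le_trans (measure_mono fun w hw => ?_) (le_iSup (fun x => secE K σ x) (p + t • (x - p)))
  exact interior_subset (s := K) hw

theorem vol_Ue {K : Set (ι → ℝ)} (p : ι → ℝ) {t : ℝ} (ht : 0 < t) :
    volume (Ue K p t) ≤ ENNReal.ofReal ((t⁻¹) ^ Fintype.card ι) * volume K := by
  unfold Ue
  rw [vol_scale _ _ ht]
  gcongr
  exact interior_subset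

/-- the inequality for convex bodies -/
theorem body_case {κ : Type*} [Fintype κ] [Nonempty κ] {K : Set (ι → ℝ)} (hKc : IsCompact K)
    (hK : Convex ℝ K) (hKi : (interior K).Nonempty) (σ : Finset ι) (hσ : 1 ≤ σ.card)
    (τ : κ → Finset ι) (hsub : ∀ j, τ j ⊆ σ) (N : ℕ) (hN : 1 ≤ N) (hNm : N ≤ Fintype.card κ)
    (hcov : ∀ i ∈ σ, (Finset.univ.filter fun j => i ∈ σ \ τ j).card = N) :
    (∏ j, ((Nat.factorial (σ \ τ j).card : ℕ) : ℝ≥0∞)) * ∏ j, secE K (τ j) 0 ≤
      (⨆ x, secE K σ x) ^ (Fintype.card κ - N) *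
      (((Nat.factorial σ.card : ℕ) : ℝ≥0∞) * volume K) ^ N := by
  obtain ⟨p, hp⟩ := hKi
  set C := (⨆ x, secE K σ x) ^ (Fintype.card κ - N) *
      (((Nat.factorial σ.card : ℕ) : ℝ≥0∞) * volume K) ^ N with hC
  set e : ℕ := (σᶜ).card * (Fintype.card κ - N) + Fintype.card ι * N with he
  have step : ∀ t : ℝ, 0 < t → t < 1 →
      (∏ j, ((Nat.factorial (σ \ τ j).card : ℕ) : ℝ≥0∞)) * ∏ j, secE K (τ j) 0 ≤
      ENNReal.ofReal ((t⁻¹) ^ e) * C := by
    intro t ht ht1
    obtain ⟨R, hR⟩ := Ue_body hKc hK hp ht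
    have h1 := open_case' hR σ hσ τ hsub N hN hNm hcov
    have ht' : 0 < t⁻¹ := inv_pos.2 ht
    calc (∏ j, ((Nat.factorial (σ \ τ j).card : ℕ) : ℝ≥0∞)) * ∏ j, secE K (τ j) 0
        ≤ (∏ j, ((Nat.factorial (σ \ τ j).card : ℕ) : ℝ≥0∞)) * ∏ j, secE (Ue K p t) (τ j) 0 := by
          gcongr with j
          exact secE_mono (sub_Ue hK hp ht ht1) _ _
      _ ≤ _ := h1
      _ ≤ (ENNReal.ofReal ((t⁻¹) ^ (σᶜ).card) * ⨆ x, secE K σ x) ^ (Fintype.card κ - N) *
          (((Nat.factorial σ.card : ℕ) : ℝ≥0∞) *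
            (ENNReal.ofReal ((t⁻¹) ^ Fintype.card ι) * volume K)) ^ N := by
          gcongr
          · exact iSup_le fun x => sec_scale σ p ht x
          · exact vol_Ue p ht
      _ = ENNReal.ofReal ((t⁻¹) ^ e) * C := by
          rw [hC, mul_pow, mul_pow, mul_pow, mul_pow, ← ENNReal.ofReal_pow (by positivity),
            ← ENNReal.ofReal_pow (by positivity), ← pow_mul, ← pow_mul, he, pow_add,
            ENNReal.ofReal_mul (by positivity)]
          ring
  have ht : Tendsto (fun n : ℕ => ENNReal.ofReal ((((1 : ℝ) + 1 / ((n : ℝ) + 1))) ^ e) * C) atTop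
      (𝓝 (ENNReal.ofReal 1 * C)) := by
    refine ENNReal.Tendsto.mul_const (ENNReal.tendsto_ofReal ?_) (Or.inl (by simp))
    have h2 : Tendsto (fun n : ℕ => (1 : ℝ) + 1 / ((n : ℝ) + 1)) atTop (𝓝 (1 + 0)) :=
      tendsto_const_nhds.add tendsto_one_div_add_atTop_nhds_zero_nat
    simpa using h2.pow e
  rw [ENNReal.ofReal_one, one_mul] at ht
  refine ge_of_tendsto' ht fun n => ?_
  have hp : (0 : ℝ) < 1 / ((n : ℝ) + 1) := by positivity
  have h3 := step (1 + 1 / ((n : ℝ) + 1))⁻¹ (by positivity) (inv_lt_one_of_one_lt₀ (by linarith))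
  rwa [inv_inv] at h3

end Pool.Agent.X166.LW
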