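import Pool.Agent.X166.LW.I

/-!
# Sections of convex bodies, real form
-/

set_option autoImplicit false

namespace Pool.Agent.X166.LW

open MeasureTheory Filter Topology Set
open scoped ENNReal

/-- The `(n - |τ|)`-dimensional volume of the section of `K ⊆ ℝⁿ` by the affine subspace
`x + H_τ^⊥`, where `H_τ^⊥` is spanned by the basis vectors `e_i`, `i ∉ τ`: the Lebesgue measure of
the set of all `y ∈ ℝ^(τᶜ)` such that the point with coordinates `y i` for `i ∉ τ` and `x i` for
`i ∈ τ` belongs to `K`. -/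
noncomputable def sectionVol {n : ℕ} (K : Set (Fin n → ℝ)) (τ : Finset (Fin n)) (x : Fin n → ℝ) :
    ℝ :=
  (volume {y : ↥(τᶜ) → ℝ | Function.updateFinset x τᶜ y ∈ K}).toReal

/-- `M_σ(K)`: the largest volume of a section of `K` by a translate of `H_σ^⊥`. -/
noncomputable def maxSection {n : ℕ} (K : Set (Fin n → ℝ)) (σ : Finset (Fin n)) : ℝ :=
  ⨆ x : Fin n → ℝ, sectionVol K σ x

theorem secE_bdd {n : ℕ} {K : Set (Fin n → ℝ)} (hKc : IsCompact K) (τ : Finset (Fin n)) :
    (⨆ x, secE K τ x) ≠ ∞ := by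
  obtain ⟨r, hr⟩ := hKc.isBounded.exists_norm_le
  rcases K.eq_empty_or_nonempty with h0 | ⟨z, hz⟩
  · subst h0
    simp [secE]
  have hr0 : 0 ≤ r := (norm_nonneg _).trans (hr z hz)
  have hb : ∀ x, secE K τ x ≤ volume (Metric.closedBall (0 : (↥(τᶜ) → ℝ)) r) := by
    intro x
    refine measure_mono fun y hy => ?_
    rw [mem_closedBall_zero_iff, pi_norm_le_iff_of_nonneg hr0]
    intro i
    have := (norm_le_pi_norm _ (i : Fin n)).trans (hr _ hy)
    simp only [Function.updateFinset, i.2, dif_pos] at this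
    exact this
  refine ne_top_of_le_ne_top ?_ (iSup_le hb)
  exact (measure_closedBall_lt_top).ne

theorem secE_ne {n : ℕ} {K : Set (Fin n → ℝ)} (hKc : IsCompact K) (τ : Finset (Fin n))
    (x : Fin n → ℝ) : secE K τ x ≠ ∞ :=
  ne_top_of_le_ne_top (secE_bdd hKc τ) (le_iSup (secE K τ) x)

theorem sectionVol_eq {n : ℕ} (K : Set (Fin n → ℝ)) (τ : Finset (Fin n)) (x : Fin n → ℝ) :
    sectionVol K τ x = (secE K τ x).toReal := rfl

theorem maxSection_eq {n : ℕ} {K : Set (Fin n → ℝ)} (hKc : IsCompact K) (σ : Finset (Fin n)) :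
    maxSection K σ = (⨆ x, secE K σ x).toReal := by
  rw [ENNReal.toReal_iSup (fun x => secE_ne hKc σ x)]
  rfl

theorem le_maxSection {n : ℕ} {K : Set (Fin n → ℝ)} (hKc : IsCompact K) (σ : Finset (Fin n))
    (x : Fin n → ℝ) : sectionVol K σ x ≤ maxSection K σ := by
  rw [maxSection_eq hKc, sectionVol_eq]
  exact ENNReal.toReal_mono (secE_bdd hKc σ) (le_iSup (secE K σ) x)

theorem main {n : ℕ} (K : Set (Fin n → ℝ)) (hKc : IsCompact K) (hK : Convex ℝ K)
    (hKi : (interior K).Nonempty) (σ : Finset (Fin n)) (m s : ℕ) (hm : 1 ≤ m) (hs : 1 ≤ s)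
    (τ : Fin m → Finset (Fin n)) (hτ : ∀ j, τ j ⊆ σ)
    (hcov : ∀ i ∈ σ, (Finset.univ.filter fun j => i ∈ τ j).card = s) :
    (∏ j, ((Nat.factorial (σ.card - (τ j).card) : ℕ) : ℝ)) /
        ((Nat.factorial σ.card : ℕ) : ℝ) ^ ((m : ℤ) - (s : ℤ)) *
      ∏ j, sectionVol K (τ j) 0 ≤
    (volume K).toReal ^ ((m : ℤ) - (s : ℤ)) * maxSection K σ ^ s := by
  haveI : Nonempty (Fin m) := ⟨⟨0, by omega⟩⟩
  have hV0 : 0 < (volume K).toReal := by
    refine ENNReal.toReal_pos ?_ hKc.measure_lt_top.ne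
    have h1 : 0 < volume (interior K) := isOpen_interior.measure_pos _ hKi
    exact (h1.trans_le (measure_mono interior_subset)).ne'
  have hM0 : 0 ≤ maxSection K σ := Real.iSup_nonneg fun x => ENNReal.toReal_nonneg
  rcases σ.eq_empty_or_nonempty with hσ | hσ
  · subst hσ
    have ht : ∀ j, τ j = ∅ := fun j => Finset.subset_empty.1 (hτ j)
    have hv : ∀ x, sectionVol K ∅ x = (volume K).toReal := by
      intro x
      rw [sectionVol_eq, ← secE_eq hKc.measurableSet, Finset.compl_empty,
        vol_eq hKc.measurableSet]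
    have hM : maxSection K ∅ = (volume K).toReal := by
      unfold maxSection
      simp [hv]
    simp only [ht, hv, hM, Finset.card_empty, Finset.prod_const, Finset.card_univ,
      Fintype.card_fin, Nat.sub_zero, Nat.factorial_zero, Nat.cast_one, one_pow, one_zpow, div_one,
      one_mul]
    rw [← zpow_natCast _ s, ← zpow_add₀ hV0.ne', sub_add_cancel, zpow_natCast]
  · obtain ⟨i0, hi0⟩ := hσ
    have hsm : s ≤ m := by
      rw [← hcov i0 hi0]
      simpa using Finset.card_le_univ (Finset.univ.filter fun j => i0 ∈ τ j)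
    have hσ1 : 1 ≤ σ.card := Finset.card_pos.2 ⟨i0, hi0⟩
    obtain ⟨N, hN⟩ : ∃ N, m = N + s := ⟨m - s, by omega⟩
    have hz : ((m : ℤ) - (s : ℤ)) = ((N : ℕ) : ℤ) := by rw [hN]; push_cast; ring
    rw [hz, zpow_natCast, zpow_natCast]
    have hcov' : ∀ i ∈ σ, (Finset.univ.filter fun j => i ∈ σ \ τ j).card = N := by
      intro i hi
      have h1 : (Finset.univ.filter fun j => i ∈ σ \ τ j) =
          (Finset.univ.filter fun j => i ∈ τ j)ᶜ := by
        ext j; simp [hi]
      rw [h1, Finset.card_compl, hcov i hi, Fintype.card_fin]; omega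
    rcases Nat.eq_zero_or_pos N with hN0 | hN0
    · have ht : ∀ j, τ j = σ := by
        intro j
        refine Finset.Subset.antisymm (hτ j) fun i hi => ?_
        have h1 := hcov' i hi
        rw [hN0, Finset.card_eq_zero, Finset.filter_eq_empty_iff] at h1
        have h2 := h1 (Finset.mem_univ j)
        by_contra hc
        exact h2 (Finset.mem_sdiff.2 ⟨hi, hc⟩)
      have hms : m = s := by omega
      subst hms
      simp only [ht, hN0, pow_zero, Nat.sub_self, Nat.factorial_zero, Nat.cast_one,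
        Finset.prod_const_one, div_one, one_mul, Finset.prod_const, Finset.card_univ,
        Fintype.card_fin]
      exact pow_le_pow_left₀ ENNReal.toReal_nonneg (le_maxSection hKc σ 0) _
    · have key := body_case hKc hK hKi σ hσ1 τ hτ N hN0 (by rw [Fintype.card_fin]; omega) hcov'
      rw [Fintype.card_fin, show m - N = s by omega] at key
      have hfin : (⨆ x, secE K σ x) ^ s *
          (((Nat.factorial σ.card : ℕ) : ℝ≥0∞) * volume K) ^ N ≠ ∞ :=
        ENNReal.mul_ne_top (ENNReal.pow_ne_top (secE_bdd hKc σ))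
          (ENNReal.pow_ne_top (ENNReal.mul_ne_top (ENNReal.natCast_ne_top _)
            hKc.measure_lt_top.ne))
      have key2 := ENNReal.toReal_mono hfin key
      rw [ENNReal.toReal_mul, ENNReal.toReal_prod, ENNReal.toReal_prod, ENNReal.toReal_mul,
        ENNReal.toReal_pow, ENNReal.toReal_pow, ENNReal.toReal_mul, ENNReal.toReal_natCast,
        ← maxSection_eq hKc] at key2
      have e1 : ∀ j, ((Nat.factorial (σ \ τ j).card : ℕ) : ℝ≥0∞).toReal =
          ((Nat.factorial (σ.card - (τ j).card) : ℕ) : ℝ) := by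
        intro j
        rw [ENNReal.toReal_natCast, Finset.card_sdiff_of_subset (hτ j)]
      rw [Finset.prod_congr rfl (fun j _ => e1 j)] at key2
      have hF : (0 : ℝ) < ((Nat.factorial σ.card : ℕ) : ℝ) := by
        exact_mod_cast Nat.factorial_pos _
      rw [div_mul_eq_mul_div, div_le_iff₀ (by positivity)]
      calc (∏ j, ((Nat.factorial (σ.card - (τ j).card) : ℕ) : ℝ)) * ∏ j, sectionVol K (τ j) 0
          ≤ maxSection K σ ^ s *
            (((Nat.factorial σ.card : ℕ) : ℝ) * (volume K).toReal) ^ N := key2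
        _ = _ := by rw [mul_pow]; ring

end Pool.Agent.X166.LW
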